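import Pool.Agent.Helper29.CQ.Bundle
import Pool.Agent.Helper29.CQ.Corr

/-!
# Double covers of the quadric cone: definitions for ConeTowers
-/

set_option autoImplicit false

namespace Pool.Agent.Helper71.CT

open Pool.Agent.Helper29.CQ Pool.Agent.Helper65.CC Pool.Agent.Helper87.CC
  Pool.Agent.Helper65.CC.KFn
open Polynomial

variable {K : Type} [Field K]

/-- the polynomial `al y³ + a₂(x) y² + a₄(x) y + a₆(x)` -/
noncomputable def Dv {R : Type} [CommRing R] [Algebra K R] (al : K) (a2 a4 a6 : K[X]) (x y : R) :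
    R :=
  algebraMap K R al * y ^ 3 + aeval x a2 * y ^ 2 + aeval x a4 * y + aeval x a6

theorem Dv_map {R S : Type} [CommRing R] [Algebra K R] [CommRing S] [Algebra K S] (al : K)
    (a2 a4 a6 : K[X]) (f : R →ₐ[K] S) (x y : R) :
    f (Dv al a2 a4 a6 x y) = Dv al a2 a4 a6 (f x) (f y) := by
  simp only [Dv, map_add, map_mul, map_pow, AlgHom.commutes, ← aeval_algHom_apply]

/-- the double cover `u² = al y³ + a₂(x) y² + a₄(x) y + a₆(x)` -/
noncomputable def W (al : K) (a2 a4 a6 : K[X]) : KFn K :=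
  (A3 K).cls ⟨fun x => x.2.2 ^ 2 - Dv al a2 a4 a6 x.1 x.2.1, fun f x => by
    rw [map_sub, map_pow, Dv_map]
    rfl⟩

noncomputable instance (al : K) (a2 a4 a6 : K[X]) : Rp (W al a2 a4 a6) := by
  unfold W
  infer_instance

/-- the branch curve at infinity: `u² = al X³ + a₂₂ X² + a₄₄ X + a₆₆` -/
noncomputable def top (al : K) (a2 a4 a6 : K[X]) : K[X] :=
  C al * X ^ 3 + C (a2.coeff 2) * X ^ 2 + C (a4.coeff 4) * X + C (a6.coeff 6)

/-- the polynomial is a cubic polynomial in `y - q(x)`, or it depends on `x` only -/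
def Cyl6 (al : K) (a2 a4 a6 : K[X]) : Prop :=
  (al ≠ 0 ∧ ∃ q : K[X], q.natDegree ≤ 2 ∧ ∃ b2 b4 b6 : K,
    ∀ (R : Type) [CommRing R] [Algebra K R] (x y : R),
      Dv al a2 a4 a6 x (y + aeval x q) = Dv al (C b2) (C b4) (C b6) x y) ∨
  (al = 0 ∧ a2 = 0 ∧ a4 = 0)

/-- the trichotomy: a tritangent section, a singular point at finite distance, a singular point
at infinity -/
def Dich (al : K) (a2 a4 a6 : K[X]) : Prop :=
  (∃ q r : K[X], q.natDegree ≤ 2 ∧ r.natDegree ≤ 3 ∧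
    C al * q ^ 3 + a2 * q ^ 2 + a4 * q + a6 = r ^ 2) ∨
  (∃ x0 y0 : K, al * y0 ^ 3 + a2.eval x0 * y0 ^ 2 + a4.eval x0 * y0 + a6.eval x0 = 0 ∧
    3 * al * y0 ^ 2 + 2 * a2.eval x0 * y0 + a4.eval x0 = 0 ∧
    a2.derivative.eval x0 * y0 ^ 2 + a4.derivative.eval x0 * y0 + a6.derivative.eval x0 = 0) ∨
  (∃ y0 : K, al * y0 ^ 3 + a2.coeff 2 * y0 ^ 2 + a4.coeff 4 * y0 + a6.coeff 6 = 0 ∧
    3 * al * y0 ^ 2 + 2 * a2.coeff 2 * y0 + a4.coeff 4 = 0 ∧
    a2.coeff 1 * y0 ^ 2 + a4.coeff 3 * y0 + a6.coeff 5 = 0)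

/-- the statement of the quartic theorem (`geo_main` of helper29) -/
def Geo4 (K : Type) [Field K] (G : ∀ (R : Type) [CommRing R] [Algebra K R], Prop) : Prop :=
  ∀ c : ℕ → ℕ → K, (BC (bin4 (lead c) (X : K[X]) 1)).Mem G → ¬ Cyl' c → (V c).Mem G

end Pool.Agent.Helper71.CT
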