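import Pool.Agent.Helper71.CQ.Core4
import Pool.Agent.Helper71.CT.Defs

/-!
# Weighted sextics: a tritangent section or a singular point
-/

set_option autoImplicit false

namespace Pool.Agent.Helper71.CT

open Polynomial Pool.Agent.Helper71.CQ

section Descent

variable {K κ : Type} [Field K] [IsAlgClosed K] [Field κ] [Algebra K κ]

theorem descS (al : K) (a2 a4 a6 : K[X]) (x0 y0 : κ)
    (h1 : algebraMap K κ al * y0 ^ 3 + aeval x0 a2 * y0 ^ 2 + aeval x0 a4 * y0 + aeval x0 a6 = 0)
    (h2 : 3 * algebraMap K κ al * y0 ^ 2 + 2 * aeval x0 a2 * y0 + aeval x0 a4 = 0)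
    (h3 : aeval x0 a2.derivative * y0 ^ 2 + aeval x0 a4.derivative * y0 +
      aeval x0 a6.derivative = 0) :
    ∃ x0 y0 : K, al * y0 ^ 3 + a2.eval x0 * y0 ^ 2 + a4.eval x0 * y0 + a6.eval x0 = 0 ∧
    3 * al * y0 ^ 2 + 2 * a2.eval x0 * y0 + a4.eval x0 = 0 ∧
    a2.derivative.eval x0 * y0 ^ 2 + a4.derivative.eval x0 * y0 + a6.derivative.eval x0 = 0 := by
  let B : Subalgebra K κ := Algebra.adjoin K {x0, y0}
  have hB : Algebra.FiniteType K B := by
    rw [← Subalgebra.fg_iff_finiteType]
    exact Subalgebra.fg_def.2 ⟨_, Set.toFinite _, rfl⟩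
  obtain ⟨φ⟩ := Pool.Agent.Helper87.CC.Line.exists_point (K := K) (B := B)
  let xB : B := ⟨x0, Algebra.subset_adjoin (by simp)⟩
  let yB : B := ⟨y0, Algebra.subset_adjoin (by simp)⟩
  have hinj : Function.Injective B.val := Subtype.val_injective
  have hx : ∀ p : K[X], B.val (aeval xB p) = aeval x0 p := fun p =>
    (aeval_algHom_apply B.val xB p).symm
  have hφ : ∀ p : K[X], φ (aeval xB p) = p.eval (φ xB) := fun p => by
    rw [← aeval_algHom_apply, coe_aeval_eq_eval]
  have k1 : algebraMap K B al * yB ^ 3 + aeval xB a2 * yB ^ 2 + aeval xB a4 * yB +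
      aeval xB a6 = 0 := by
    apply hinj
    simp only [map_add, map_mul, map_pow, hx, map_zero, AlgHom.commutes]
    exact h1
  have k2 : 3 * algebraMap K B al * yB ^ 2 + 2 * aeval xB a2 * yB + aeval xB a4 = 0 := by
    apply hinj
    simp only [map_add, map_mul, map_pow, hx, map_zero, AlgHom.commutes, map_ofNat]
    exact h2
  have k3 : aeval xB a2.derivative * yB ^ 2 + aeval xB a4.derivative * yB +
      aeval xB a6.derivative = 0 := by
    apply hinj
    simp only [map_add, map_mul, map_pow, hx, map_zero]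
    exact h3
  refine ⟨φ xB, φ yB, ?_, ?_, ?_⟩
  · have h := congrArg φ k1
    simp only [map_add, map_mul, map_pow, hφ, map_zero, AlgHom.commutes,
      Algebra.algebraMap_self, RingHom.id_apply] at h
    exact h
  · have h := congrArg φ k2
    simp only [map_add, map_mul, map_pow, hφ, map_zero, AlgHom.commutes, map_ofNat,
      Algebra.algebraMap_self, RingHom.id_apply] at h
    exact h
  · have h := congrArg φ k3
    simp only [map_add, map_mul, map_pow, hφ, map_zero] at h
    exact h

theorem descI (c0 c1 c2 c3 d0 d1 d2 e0 e1 e2 : K) (y0 : κ)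
    (h1 : algebraMap K κ c3 * y0 ^ 3 + algebraMap K κ c2 * y0 ^ 2 + algebraMap K κ c1 * y0 +
      algebraMap K κ c0 = 0)
    (h2 : 3 * algebraMap K κ d2 * y0 ^ 2 + 2 * algebraMap K κ d1 * y0 + algebraMap K κ d0 = 0)
    (h3 : algebraMap K κ e2 * y0 ^ 2 + algebraMap K κ e1 * y0 + algebraMap K κ e0 = 0) :
    ∃ y0 : K, c3 * y0 ^ 3 + c2 * y0 ^ 2 + c1 * y0 + c0 = 0 ∧
    3 * d2 * y0 ^ 2 + 2 * d1 * y0 + d0 = 0 ∧ e2 * y0 ^ 2 + e1 * y0 + e0 = 0 := by
  let B : Subalgebra K κ := Algebra.adjoin K {y0}
  have hB : Algebra.FiniteType K B := by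
    rw [← Subalgebra.fg_iff_finiteType]
    exact Subalgebra.fg_def.2 ⟨_, Set.toFinite _, rfl⟩
  obtain ⟨φ⟩ := Pool.Agent.Helper87.CC.Line.exists_point (K := K) (B := B)
  let yB : B := ⟨y0, Algebra.subset_adjoin (by simp)⟩
  have k1 : algebraMap K B c3 * yB ^ 3 + algebraMap K B c2 * yB ^ 2 + algebraMap K B c1 * yB +
      algebraMap K B c0 = 0 := Subtype.ext h1
  have k2 : 3 * algebraMap K B d2 * yB ^ 2 + 2 * algebraMap K B d1 * yB +
      algebraMap K B d0 = 0 := Subtype.ext h2
  have k3 : algebraMap K B e2 * yB ^ 2 + algebraMap K B e1 * yB +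
      algebraMap K B e0 = 0 := Subtype.ext h3
  refine ⟨φ yB, ?_, ?_, ?_⟩
  · have h := congrArg φ k1
    simp only [map_add, map_mul, map_pow, map_zero, AlgHom.commutes,
      Algebra.algebraMap_self, RingHom.id_apply] at h
    exact h
  · have h := congrArg φ k2
    simp only [map_add, map_mul, map_pow, map_zero, AlgHom.commutes, map_ofNat,
      Algebra.algebraMap_self, RingHom.id_apply] at h
    exact h
  · have h := congrArg φ k3
    simp only [map_add, map_mul, map_pow, map_zero, AlgHom.commutes,
      Algebra.algebraMap_self, RingHom.id_apply] at h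
    exact h

theorem descT (al : K) (a2 a4 a6 : K[X]) (q r : κ[X]) (dq : q.natDegree ≤ 2)
    (dr : r.natDegree ≤ 3)
    (h : C (algebraMap K κ al) * q ^ 3 + a2.map (algebraMap K κ) * q ^ 2 +
      a4.map (algebraMap K κ) * q + a6.map (algebraMap K κ) = r ^ 2) :
    ∃ q r : K[X], q.natDegree ≤ 2 ∧ r.natDegree ≤ 3 ∧
      C al * q ^ 3 + a2 * q ^ 2 + a4 * q + a6 = r ^ 2 := by
  let S : Set κ := Set.range (fun i : Fin 3 => q.coeff i) ∪ Set.range (fun i : Fin 4 => r.coeff i)
  let B : Subalgebra K κ := Algebra.adjoin K S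
  have hB : Algebra.FiniteType K B := by
    rw [← Subalgebra.fg_iff_finiteType]
    exact Subalgebra.fg_def.2 ⟨_, (Set.finite_range _).union (Set.finite_range _), rfl⟩
  obtain ⟨φ⟩ := Pool.Agent.Helper87.CC.Line.exists_point (K := K) (B := B)
  let qB : Fin 3 → B := fun i => ⟨q.coeff i, Algebra.subset_adjoin (Or.inl ⟨i, rfl⟩)⟩
  let rB : Fin 4 → B := fun i => ⟨r.coeff i, Algebra.subset_adjoin (Or.inr ⟨i, rfl⟩)⟩
  let Q : B[X] := C (qB 0) + C (qB 1) * X + C (qB 2) * X ^ 2
  let R : B[X] := C (rB 0) + C (rB 1) * X + C (rB 2) * X ^ 2 + C (rB 3) * X ^ 3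
  have hQ : Q.map (B.val : B →+* κ) = q := by
    rw [explicit q 2 dq]
    simp [Q, Finset.sum_range_succ, qB]
  have hR : R.map (B.val : B →+* κ) = r := by
    rw [explicit r 3 dr]
    simp [R, Finset.sum_range_succ, rB]
  have hmap : ∀ p : K[X], (p.map (algebraMap K B)).map (B.val : B →+* κ) =
      p.map (algebraMap K κ) := by
    intro p
    rw [Polynomial.map_map]
    rfl
  have key : C (algebraMap K B al) * Q ^ 3 + a2.map (algebraMap K B) * Q ^ 2 +
      a4.map (algebraMap K B) * Q + a6.map (algebraMap K B) = R ^ 2 := by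
    apply Polynomial.map_injective (B.val : B →+* κ) Subtype.val_injective
    simp only [Polynomial.map_add, Polynomial.map_mul, Polynomial.map_pow, hQ, hR, hmap, map_C]
    exact h
  refine ⟨Q.map (φ : B →+* K), R.map (φ : B →+* K), ?_, ?_, ?_⟩
  · refine natDegree_map_le.trans ?_
    simp only [Q]
    compute_degree
  · refine natDegree_map_le.trans ?_
    simp only [R]
    compute_degree
  · have hmap' : ∀ p : K[X], (p.map (algebraMap K B)).map (φ : B →+* K) = p := by
      intro p
      rw [Polynomial.map_map]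
      have h1 : (φ : B →+* K).comp (algebraMap K B) = RingHom.id K := by
        ext x
        exact φ.commutes x
      rw [h1, Polynomial.map_id]
    have h1 := congrArg (Polynomial.map (φ : B →+* K)) key
    simp only [Polynomial.map_add, Polynomial.map_mul, Polynomial.map_pow, hmap', map_C] at h1
    have h2 : (φ : B →+* K) (algebraMap K B al) = al := φ.commutes al
    rw [h2] at h1
    exact h1

end Descent

section Field

/-- the field of fractions of the power series -/
abbrev FF (K : Type) [Field K] : Type := FractionRing (PowerSeries K)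

/-- its algebraic closure -/
abbrev EE (K : Type) [Field K] : Type := AlgebraicClosure (FF K)

/-- the power series in the algebraic closure -/
noncomputable def ii (K : Type) [Field K] : PowerSeries K →+* EE K :=
  (algebraMap (FF K) (EE K)).comp (algebraMap (PowerSeries K) (FF K))

/-- the constants -/
noncomputable def ff (K : Type) [Field K] : K →+* EE K := (ii K).comp (PowerSeries.C (R := K))

theorem ii_injective (K : Type) [Field K] : Function.Injective (ii K) :=
  (algebraMap (FF K) (EE K)).injective.comp (IsFractionRing.injective (PowerSeries K) (FF K))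

/-- a valuation ring in which the parameter has a pole -/
theorem exists_val (K : Type) [Field K] : ∃ O : ValuationSubring (EE K),
    (∀ x, ff K x ∈ O) ∧ (ii K PowerSeries.X)⁻¹ ∈ O.nonunits := by
  let t : EE K := (ii K PowerSeries.X)⁻¹
  let t' : FF K := (algebraMap (PowerSeries K) (FF K) PowerSeries.X)⁻¹
  have htt : t = algebraMap (FF K) (EE K) t' := by
    simp only [t, t', ii, map_inv₀, RingHom.comp_apply]
  let A : Subring (EE K) := (eval₂RingHom (ff K) t).range
  have htA : t ∈ A := ⟨X, by simp⟩
  let I : Ideal A := Ideal.span {⟨t, htA⟩}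
  have hI : I ≠ ⊤ := by
    rw [Ne, Ideal.eq_top_iff_one, Ideal.mem_span_singleton']
    rintro ⟨⟨a, ⟨p, hp⟩⟩, ha⟩
    have h1 : a * t = 1 := congrArg Subtype.val ha
    have hp' : eval₂ (ff K) t p = a := hp
    have h2 : a = algebraMap (FF K) (EE K) (aeval t' p) := by
      rw [← hp', aeval_def, hom_eval₂, ← htt]
      congr 1
    rw [h2, htt, ← map_mul, ← map_one (algebraMap (FF K) (EE K))] at h1
    have h3 := (algebraMap (FF K) (EE K)).injective h1
    apply Pool.Agent.Helper87.CC.Line.transcendental_inv K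
    refine ⟨p * X - 1, ?_, ?_⟩
    · intro h4
      have h5 := congrArg (Polynomial.eval 0) h4
      simp at h5
    · rw [map_sub, map_mul, aeval_X, map_one]
      change aeval t' p * t' - 1 = 0
      rw [h3, sub_self]
  obtain ⟨O, hO1, hO2⟩ := Ideal.image_subset_nonunits_valuationSubring I hI
  refine ⟨O, fun x => hO1 ⟨C x, by simp⟩, hO2 ⟨⟨t, htA⟩, Ideal.mem_span_singleton_self _, rfl⟩⟩

end Field

section Spec

variable {K E : Type} [Field K] [IsAlgClosed K] [Field E] [IsAlgClosed E]

theorem res_eval (O : ValuationSubring E) (A : O[X]) (x : O) :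
    IsLocalRing.residue O (A.eval x) = (A.map (IsLocalRing.residue O)).eval
      (IsLocalRing.residue O x) := by
  rw [eval_map, eval₂_at_apply]

/-- the valuation side: the specialisation of a tritangent section of a small deformation -/
theorem spec (h2 : (2 : K) ≠ 0) (al : K) (hal : al ≠ 0) (a2 a4 a6 : K[X])
    (d2 : a2.natDegree ≤ 2) (d4 : a4.natDegree ≤ 4) (d6 : a6.natDegree ≤ 6)
    (O : ValuationSubring E) (φ : K →+* O) (s : O) (hs : ¬ IsUnit s) (q r : E[X])
    (dq : q.natDegree ≤ 2) (dr : r.natDegree ≤ 3)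
    (h : C ((φ al : O) : E) * q ^ 3 + (a2.map φ).map O.subtype * q ^ 2 +
      (a4.map φ + C s * X ^ 4).map O.subtype * q + (a6.map φ + C s).map O.subtype = r ^ 2) :
    Dich al a2 a4 a6 := by
  classical
  let κ := IsLocalRing.ResidueField O
  let π : O →+* κ := IsLocalRing.residue O
  let _ : Algebra K κ := (π.comp φ).toAlgebra
  have hπφ : ∀ x, π (φ x) = algebraMap K κ x := fun x => rfl
  have hmapπ : ∀ p : K[X], (p.map φ).map π = p.map (algebraMap K κ) := by
    intro p
    rw [Polynomial.map_map]
    rfl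
  have hπs : π s = 0 := by
    rw [IsLocalRing.residue_eq_zero_iff, IsLocalRing.mem_maximalIdeal, mem_nonunits_iff]
    exact hs
  have h2O : IsUnit (2 : O) := by
    have h3 : (2 : O) = φ 2 := (map_ofNat φ 2).symm
    rw [h3]
    exact (isUnit_iff_ne_zero.2 h2).map φ
  have hα : IsUnit (φ al) := (isUnit_iff_ne_zero.2 hal).map φ
  obtain ⟨A2, hA2⟩ : ∃ A, A = a2.map φ := ⟨_, rfl⟩
  obtain ⟨A4, hA4⟩ : ∃ A, A = a4.map φ + C s * X ^ 4 := ⟨_, rfl⟩
  obtain ⟨A6, hA6⟩ : ∃ A, A = a6.map φ + C s := ⟨_, rfl⟩
  have hA2π : A2.map π = a2.map (algebraMap K κ) := by rw [hA2, hmapπ]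
  have hA4π : A4.map π = a4.map (algebraMap K κ) := by
    rw [hA4, Polynomial.map_add, hmapπ, Polynomial.map_mul, map_C, hπs, C_0, zero_mul, add_zero]
  have hA6π : A6.map π = a6.map (algebraMap K κ) := by
    rw [hA6, Polynomial.map_add, hmapπ, map_C, hπs, C_0, add_zero]
  have D2 : A2.natDegree ≤ 2 := by rw [hA2]; exact natDegree_map_le.trans d2
  have D4 : A4.natDegree ≤ 4 := by
    rw [hA4]
    refine natDegree_add_le_of_degree_le (natDegree_map_le.trans d4) ?_
    exact natDegree_C_mul_X_pow_le _ _
  have D6 : A6.natDegree ≤ 6 := by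
    rw [hA6]
    refine natDegree_add_le_of_degree_le (natDegree_map_le.trans d6) ?_
    rw [natDegree_C]
    exact Nat.zero_le _
  rw [← hA2, ← hA4, ← hA6] at h
  by_cases hall : ∀ i, q.coeff i ∈ O
  · -- the section specialises to a section
    left
    obtain ⟨qO, hqO⟩ : ∃ p : O[X], p.map O.subtype = q := by
      have h1 : q ∈ lifts O.subtype := by
        rw [lifts_iff_coeff_lifts]
        intro n
        exact ⟨⟨q.coeff n, hall n⟩, rfl⟩
      exact (mem_lifts _).1 h1
    let P : O[X] := C (φ al) * qO ^ 3 + A2 * qO ^ 2 + A4 * qO + A6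
    have hP : P.map O.subtype = r ^ 2 := by
      rw [← h]
      simp only [P, Polynomial.map_add, Polynomial.map_mul, Polynomial.map_pow, hqO, map_C]
      rfl
    obtain ⟨rO, hrO⟩ := sq_lifts O r P hP
    have hPr : P = rO ^ 2 := by
      apply Polynomial.map_injective O.subtype O.subtype_injective
      rw [hP, Polynomial.map_pow, hrO]
    have dqO : qO.natDegree ≤ 2 := by
      rw [← natDegree_map_eq_of_injective O.subtype_injective qO, hqO]
      exact dq
    have drO : rO.natDegree ≤ 3 := by
      rw [← natDegree_map_eq_of_injective O.subtype_injective rO, hrO]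
      exact dr
    have h3 := congrArg (Polynomial.map π) hPr
    simp only [P, Polynomial.map_add, Polynomial.map_mul, Polynomial.map_pow, map_C, hA2π, hA4π,
      hA6π, hπφ] at h3
    exact descT al a2 a4 a6 _ _ (natDegree_map_le.trans dqO) (natDegree_map_le.trans drO) h3
  · right
    push Not at hall
    obtain ⟨i0, hi0⟩ := hall
    have hi3 : i0 < 3 := by
      by_contra hcon
      apply hi0
      rw [coeff_eq_zero_of_natDegree_lt (by omega)]
      exact O.zero_mem
    obtain ⟨j, hj⟩ := Finite.exists_max (fun i : Fin 3 => O.valuation (q.coeff i))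
    have hjO : q.coeff j ∉ O := by
      intro hcon
      apply hi0
      rw [← O.valuation_le_one_iff] at hcon ⊢
      exact (hj ⟨i0, hi3⟩).trans hcon
    have hj0 : q.coeff j ≠ 0 := fun h0 => hjO (by rw [h0]; exact O.zero_mem)
    have hu : (q.coeff j)⁻¹ ∈ O := (O.mem_or_inv_mem (q.coeff j)).resolve_left hjO
    obtain ⟨lam, hlam⟩ : ∃ l : O, (l : E) = (q.coeff j)⁻¹ := ⟨⟨_, hu⟩, rfl⟩
    have hlam0 : lam ≠ 0 := by
      rintro rfl
      have h1 : (q.coeff j)⁻¹ = 0 := hlam.symm
      exact hj0 (inv_eq_zero.1 h1)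
    have hlam1 : ¬ IsUnit lam := by
      intro hunit
      apply hjO
      obtain ⟨w, hw⟩ := hunit.exists_right_inv
      have h3 := congrArg (Subtype.val : O → E) hw
      change (lam : E) * (w : E) = 1 at h3
      rw [hlam] at h3
      have h4 : q.coeff j = (w : E) := by
        field_simp at h3
        exact h3.symm
      rw [h4]
      exact w.2
    have hdiv : ∀ i : Fin 3, ∃ c : O, (c : E) = (q.coeff j)⁻¹ * q.coeff i := by
      intro i
      by_cases hi : q.coeff i = 0
      · exact ⟨0, by rw [hi, mul_zero]; rfl⟩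
      · obtain ⟨a, ha⟩ := (O.valuation_le_iff (q.coeff i) (q.coeff j)).1 (hj i)
        refine ⟨a, ?_⟩
        rw [← ha]
        field_simp
    obtain ⟨c0, hc0⟩ := hdiv 0
    obtain ⟨c1, hc1⟩ := hdiv 1
    obtain ⟨c2, hc2⟩ := hdiv 2
    change (c0 : E) = (q.coeff j)⁻¹ * q.coeff 0 at hc0
    change (c1 : E) = (q.coeff j)⁻¹ * q.coeff 1 at hc1
    change (c2 : E) = (q.coeff j)⁻¹ * q.coeff 2 at hc2
    have hqe : q = C (q.coeff 0) + C (q.coeff 1) * X + C (q.coeff 2) * X ^ 2 := by
      conv_lhs => rw [explicit q 2 dq]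
      simp [Finset.sum_range_succ]
    have hqj : C (q.coeff j) * (C (c0 : E) + C (c1 : E) * X + C (c2 : E) * X ^ 2) = q := by
      conv_rhs => rw [hqe]
      rw [hc0, hc1, hc2]
      have h3 : (C (q.coeff j) : E[X]) * C ((q.coeff j)⁻¹) = 1 := by
        rw [← C_mul, mul_inv_cancel₀ hj0, C_1]
      simp only [C_mul]
      linear_combination (C (q.coeff 0) + C (q.coeff 1) * X + C (q.coeff 2) * X ^ 2) * h3
    obtain ⟨half, hhalf⟩ := h2O.exists_right_inv
    -- first reduction
    obtain ⟨mu, hmu⟩ := exists_sqrt O lam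
    let Q' : O[X] := C c0 + C c1 * X + C c2 * X ^ 2
    have hQ' : Q'.map O.subtype = C (c0 : E) + C (c1 : E) * X + C (c2 : E) * X ^ 2 := by
      simp only [Q', Polynomial.map_add, Polynomial.map_mul, Polynomial.map_pow, map_C, map_X]
      rfl
    let P' : O[X] := C (φ al) * Q' ^ 3 + C lam * A2 * Q' ^ 2 + C lam ^ 2 * A4 * Q' +
      C lam ^ 3 * A6
    have hlq : C (lam : E) * q = C (c0 : E) + C (c1 : E) * X + C (c2 : E) * X ^ 2 := by
      rw [← hqj, ← mul_assoc, ← C_mul, hlam, inv_mul_cancel₀ hj0, C_1, one_mul]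
    have hP' : P'.map O.subtype = (C (mu : E) ^ 3 * r) ^ 2 := by
      have hmuE : (C (mu : E)) ^ 2 = C (lam : E) := by rw [← C_pow, ← hmu]; rfl
      have h3 : (C (mu : E) ^ 3 * r) ^ 2 = C (lam : E) ^ 3 * r ^ 2 := by
        rw [← hmuE]; ring
      rw [h3, ← h]
      simp only [P', Polynomial.map_add, Polynomial.map_mul, Polynomial.map_pow, map_C, hQ']
      change C ((φ al : O) : E) * (C (c0 : E) + C (c1 : E) * X + C (c2 : E) * X ^ 2) ^ 3 +
        C (lam : E) * A2.map O.subtype * (C (c0 : E) + C (c1 : E) * X + C (c2 : E) * X ^ 2) ^ 2 +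
        C (lam : E) ^ 2 * A4.map O.subtype * (C (c0 : E) + C (c1 : E) * X + C (c2 : E) * X ^ 2) +
        C (lam : E) ^ 3 * A6.map O.subtype = _
      rw [← hlq]
      ring
    obtain ⟨ρ, hρ⟩ := sq_lifts O _ P' hP'
    have hPρ : P' = ρ ^ 2 := by
      apply Polynomial.map_injective O.subtype O.subtype_injective
      rw [hP', Polynomial.map_pow, hρ]
    have hπlam : π lam = 0 := by
      rw [IsLocalRing.residue_eq_zero_iff, IsLocalRing.mem_maximalIdeal, mem_nonunits_iff]
      exact hlam1
    have h3 := congrArg (Polynomial.map π) hPρ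
    simp only [P', Q', Polynomial.map_add, Polynomial.map_mul, Polynomial.map_pow, map_C, map_X,
      hπlam, C_0, zero_mul, add_zero, ne_eq, OfNat.ofNat_ne_zero, not_false_eq_true,
      zero_pow] at h3
    have hπα : π (φ al) ≠ 0 := (IsLocalRing.residue_ne_zero_iff_isUnit _).2 hα
    by_cases hc2u : IsUnit c2
    · -- the leading coefficient dominates
      left
      obtain ⟨w, hw⟩ := hc2u.exists_right_inv
      have hwE : (c2 : E) * w = 1 := congrArg (Subtype.val : O → E) hw
      have hc2E : (c2 : E) ≠ 0 := left_ne_zero_of_mul_eq_one hwE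
      have hy : q = C ((((lam * w : O)) : E)⁻¹) * (X ^ 2 + C ((c1 * w : O) : E) * X +
          C ((c0 * w : O) : E)) := by
        have e1 : ((((lam * w : O)) : E)⁻¹) = q.coeff j * c2 := by
          have e2 : ((lam * w : O) : E) = (q.coeff j)⁻¹ * w := by
            rw [← hlam]; rfl
          rw [e2]
          have e3 : (w : E) ≠ 0 := right_ne_zero_of_mul_eq_one hwE
          field_simp
          linear_combination - hwE
        have e4 : ((c1 * w : O) : E) = c1 * w := rfl
        have e5 : ((c0 * w : O) : E) = c0 * w := rfl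
        have e6 : (C (c2 : E)) * C (w : E) = 1 := by rw [← C_mul, hwE, C_1]
        rw [e1, e4, e5]
        conv_lhs => rw [← hqj]
        simp only [C_mul]
        linear_combination (- C (q.coeff j) * (C (c1 : E) * X + C (c0 : E))) * e6
      rw [hy] at h
      obtain ⟨y, y1, y2, y3⟩ := core O h2O (φ al) hα A2 A4 A6 D2 D4 D6 (c1 * w) (c0 * w)
        (lam * w) (- (c1 * w) * half) (mul_ne_zero hlam0 (right_ne_zero_of_mul_eq_one hw))
        (fun hu' => hlam1 (isUnit_of_mul_isUnit_left hu')) r dr
        (by linear_combination (- (c1 * w)) * hhalf) h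
      refine descS al a2 a4 a6 (π (- (c1 * w) * half)) y ?_ ?_ ?_
      · rw [res_eval, res_eval, res_eval] at y1
        change π (φ al) * y ^ 3 + (A2.map π).eval (π (- (c1 * w) * half)) * y ^ 2 +
          (A4.map π).eval (π (- (c1 * w) * half)) * y +
          (A6.map π).eval (π (- (c1 * w) * half)) = 0 at y1
        rw [hA2π, hA4π, hA6π, eval_map_algebraMap, eval_map_algebraMap,
          eval_map_algebraMap] at y1
        exact y1
      · rw [res_eval, res_eval] at y2
        change 3 * π (φ al) * y ^ 2 + 2 * (A2.map π).eval (π (- (c1 * w) * half)) * y +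
          (A4.map π).eval (π (- (c1 * w) * half)) = 0 at y2
        rw [hA2π, hA4π, eval_map_algebraMap, eval_map_algebraMap] at y2
        exact y2
      · rw [res_eval, res_eval, res_eval] at y3
        change (A2.derivative.map π).eval (π (- (c1 * w) * half)) * y ^ 2 +
          (A4.derivative.map π).eval (π (- (c1 * w) * half)) * y +
          (A6.derivative.map π).eval (π (- (c1 * w) * half)) = 0 at y3
        rw [← derivative_map, ← derivative_map, ← derivative_map, hA2π, hA4π, hA6π,
          derivative_map, derivative_map, derivative_map, eval_map_algebraMap,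
          eval_map_algebraMap, eval_map_algebraMap] at y3
        exact y3
    · -- the constant coefficient dominates
      right
      have hπc2 : π c2 = 0 := by
        rw [IsLocalRing.residue_eq_zero_iff, IsLocalRing.mem_maximalIdeal, mem_nonunits_iff]
        exact hc2u
      have hπc1 : π c1 = 0 := by
        by_contra hne
        rw [hπc2, C_0, zero_mul, add_zero] at h3
        have h4 := congrArg natDegree h3
        rw [natDegree_C_mul hπα, natDegree_pow, natDegree_pow] at h4
        have h5 : (C (π c0) + C (π c1) * X : κ[X]).natDegree = 1 := by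
          rw [add_comm]
          exact natDegree_linear hne
        rw [h5] at h4
        omega
      have hj00 : (j : ℕ) = 0 := by
        have hjj : ∀ c : O, (c : E) = (q.coeff j)⁻¹ * q.coeff j → π c ≠ 0 := by
          intro c hc
          rw [inv_mul_cancel₀ hj0] at hc
          have : c = 1 := Subtype.ext hc
          rw [this, map_one]
          exact one_ne_zero
        have hj3 : (j : ℕ) < 3 := j.2
        rcases Nat.lt_or_ge (j : ℕ) 1 with h4 | h4
        · omega
        · exfalso
          rcases Nat.lt_or_ge (j : ℕ) 2 with h5 | h5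
          · have h6 : (j : ℕ) = 1 := by omega
            apply hjj c1 _ hπc1
            rw [hc1, h6]
          · have h6 : (j : ℕ) = 2 := by omega
            apply hjj c2 _ hπc2
            rw [hc2, h6]
      have hc01 : c0 = 1 := by
        apply Subtype.ext
        rw [hc0, hj00]
        rw [hj00] at hj0
        exact inv_mul_cancel₀ hj0
      -- the reflected equation
      have dm : ∀ (n : ℕ) (A : O[X]), A.natDegree ≤ n → (A.map O.subtype).natDegree ≤ n :=
        fun n A hA => natDegree_map_le.trans hA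
      have hrefl := congrArg (reflect 6) h
      have dC : (C ((φ al : O) : E)).natDegree ≤ 0 := by rw [natDegree_C]
      have f1 : reflect 6 (C ((φ al : O) : E) * q ^ 3) =
          C ((φ al : O) : E) * (reflect 2 q) ^ 3 := by
        have g1 : q ^ 3 = q * q * q := by ring
        rw [g1, reflect_C_mul, show (6 : ℕ) = 2 + 2 + 2 from rfl,
          reflect_mul (q * q) q (F := 2 + 2) (natDegree_mul_le_of_le dq dq) dq,
          reflect_mul q q dq dq]
        ring
      have f2 : reflect 6 (A2.map O.subtype * q ^ 2) =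
          reflect 2 (A2.map O.subtype) * (reflect 2 q) ^ 2 := by
        have g1 : q ^ 2 = q * q := by ring
        rw [g1, show (6 : ℕ) = 2 + (2 + 2) from rfl,
          reflect_mul _ _ (dm 2 A2 D2) (natDegree_mul_le_of_le dq dq), reflect_mul q q dq dq]
        ring
      have f3 : reflect 6 (A4.map O.subtype * q) =
          reflect 4 (A4.map O.subtype) * reflect 2 q := by
        rw [show (6 : ℕ) = 4 + 2 from rfl, reflect_mul _ _ (dm 4 A4 D4) dq]
      have f4 : reflect 6 (r ^ 2) = (reflect 3 r) ^ 2 := by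
        have g1 : r ^ 2 = r * r := by ring
        rw [g1, show (6 : ℕ) = 3 + 3 from rfl, reflect_mul r r dr dr]
        ring
      rw [reflect_add, reflect_add, reflect_add, f1, f2, f3, f4] at hrefl
      rw [reflect_map, reflect_map, reflect_map] at hrefl
      have hqr : reflect 2 q = C ((lam : E)⁻¹) * (X ^ 2 + C (c1 : E) * X + C (c2 : E)) := by
        have g1 : (lam : E)⁻¹ = q.coeff j := by rw [hlam, inv_inv]
        have g2 : C (q.coeff j) * (C (1 : E) + C (c1 : E) * X + C (c2 : E) * X ^ 2) = q := by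
          have g3 : (c0 : E) = 1 := by rw [hc01]; rfl
          rw [← g3]
          exact hqj
        rw [g1]
        obtain ⟨u, hu'⟩ : ∃ u, u = q.coeff j := ⟨_, rfl⟩
        rw [← hu'] at g2 ⊢
        rw [← g2]
        refine Polynomial.ext fun n => ?_
        rw [coeff_reflect]
        rcases n with _ | _ | _ | n
        · simp [revAt, coeff_one]
        · simp [revAt, coeff_one]
        · simp [revAt, coeff_one]
        · have g4 : revAt 2 (n + 1 + 1 + 1) = n + 1 + 1 + 1 := by
            simp [revAt]
          have g5 : (C u * (C (1 : E) + C (c1 : E) * X + C (c2 : E) * X ^ 2)).natDegree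
              ≤ 2 := by compute_degree
          have g6 : (C u * (X ^ 2 + C (c1 : E) * X + C (c2 : E))).natDegree ≤ 2 := by
            compute_degree
          rw [g4, coeff_eq_zero_of_natDegree_lt (by omega),
            coeff_eq_zero_of_natDegree_lt (by omega)]
      rw [hqr] at hrefl
      have hrr : (reflect 3 r).natDegree ≤ 3 :=
        natDegree_reflect_le.trans (max_le le_rfl dr)
      have hπhalf : π (- c1 * half) = 0 := by
        rw [map_mul, map_neg, hπc1, neg_zero, zero_mul]
      obtain ⟨y, y1, y2, y3⟩ := core O h2O (φ al) hα (reflect 2 A2) (reflect 4 A4)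
        (reflect 6 A6) (natDegree_reflect_le.trans (max_le le_rfl D2))
        (natDegree_reflect_le.trans (max_le le_rfl D4))
        (natDegree_reflect_le.trans (max_le le_rfl D6)) c1 c2 lam (- c1 * half) hlam0 hlam1
        (reflect 3 r) hrr (by linear_combination (- c1) * hhalf) hrefl
      have hz : ∀ A : O[X], IsLocalRing.residue O (A.eval (- c1 * half)) = π (A.coeff 0) := by
        intro A
        rw [res_eval]
        change (A.map π).eval (π (- c1 * half)) = _
        rw [hπhalf, ← coeff_zero_eq_eval_zero, coeff_map]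
      have hz' : ∀ A : O[X], IsLocalRing.residue O (A.derivative.eval (- c1 * half)) =
          π (A.coeff 1) := by
        intro A
        rw [hz, coeff_derivative]
        simp
      rw [hz, hz, hz] at y1
      rw [hz, hz] at y2
      rw [hz', hz', hz'] at y3
      rw [coeff_reflect, coeff_reflect, coeff_reflect] at y1
      rw [coeff_reflect, coeff_reflect] at y2
      rw [coeff_reflect, coeff_reflect, coeff_reflect] at y3
      have k2 : π (A2.coeff (revAt 2 0)) = algebraMap K κ (a2.coeff 2) := by
        rw [← coeff_map, hA2π, coeff_map]; rfl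
      have k4 : π (A4.coeff (revAt 4 0)) = algebraMap K κ (a4.coeff 4) := by
        rw [← coeff_map, hA4π, coeff_map]; rfl
      have k6 : π (A6.coeff (revAt 6 0)) = algebraMap K κ (a6.coeff 6) := by
        rw [← coeff_map, hA6π, coeff_map]; rfl
      have k2' : π (A2.coeff (revAt 2 1)) = algebraMap K κ (a2.coeff 1) := by
        rw [← coeff_map, hA2π, coeff_map]; rfl
      have k4' : π (A4.coeff (revAt 4 1)) = algebraMap K κ (a4.coeff 3) := by
        rw [← coeff_map, hA4π, coeff_map]; rfl
      have k6' : π (A6.coeff (revAt 6 1)) = algebraMap K κ (a6.coeff 5) := by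
        rw [← coeff_map, hA6π, coeff_map]; rfl
      rw [k2, k4, k6] at y1
      rw [k2, k4] at y2
      rw [k2', k4', k6'] at y3
      exact descI (a6.coeff 6) (a4.coeff 4) (a2.coeff 2) al (a4.coeff 4) (a2.coeff 2) al
        (a6.coeff 5) (a4.coeff 3) (a2.coeff 1) y y1 y2 y3

end Spec

/-- **(D)** a weighted sextic with a term `y³` has a tritangent section or a singular point -/
theorem dich {K : Type} [Field K] [IsAlgClosed K] (h2 : (2 : K) ≠ 0) (al : K) (hal : al ≠ 0)
    (a2 a4 a6 : K[X]) (d2 : a2.natDegree ≤ 2) (d4 : a4.natDegree ≤ 4) (d6 : a6.natDegree ≤ 6) :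
    Dich al a2 a4 a6 := by
  obtain ⟨q, r, dq, dr, hqr⟩ := exists_tri h2 (PowerSeries.C al) (a2.map (PowerSeries.C (R := K)))
    (a4.map (PowerSeries.C (R := K))) (a6.map (PowerSeries.C (R := K)))
    (natDegree_map_le.trans d2) (natDegree_map_le.trans d4) (natDegree_map_le.trans d6)
  obtain ⟨O, hO1, hO2⟩ := exists_val K
  let τ : EE K := ii K PowerSeries.X
  have hτ : τ ≠ 0 := by
    intro h
    exact PowerSeries.X_ne_zero (ii_injective K (h.trans (map_zero _).symm))
  have htO : τ⁻¹ ∈ O := ValuationSubring.nonunits_subset hO2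
  let φ : K →+* O := (ff K).codRestrict O.toSubring hO1
  let t : O := ⟨τ⁻¹, htO⟩
  have ht : ¬ IsUnit t := by
    have h1 := (O.coe_mem_nonunits_iff (a := t)).1 hO2
    exact h1
  have hmap : ∀ p : K[X], (p.map φ).map O.subtype = (p.map (PowerSeries.C (R := K))).map (ii K) := by
    intro p
    rw [Polynomial.map_map, Polynomial.map_map]
    rfl
  refine spec h2 al hal a2 a4 a6 d2 d4 d6 O φ (t ^ 2) ?_ (q.map (ii K))
    (C τ⁻¹ * r.map (ii K)) (natDegree_map_le.trans dq)
    ((natDegree_C_mul_le _ _).trans (natDegree_map_le.trans dr)) ?_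
  · intro h
    exact ht (isUnit_of_dvd_unit (dvd_pow_self t two_ne_zero) h)
  · have h1 := congrArg (Polynomial.map (ii K)) hqr
    simp only [Polynomial.map_add, Polynomial.map_mul, Polynomial.map_pow, map_C, map_X,
      Polynomial.map_one, map_pow] at h1
    rw [Polynomial.map_add, Polynomial.map_add, hmap, hmap, hmap, Polynomial.map_mul,
      Polynomial.map_pow, map_C, map_X]
    have h3 : O.subtype (t ^ 2) = (τ⁻¹) ^ 2 := rfl
    have h4 : ((φ al : O) : EE K) = ii K (PowerSeries.C al) := rfl
    have h5 : (C τ⁻¹ : (EE K)[X]) * C τ = 1 := by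
      rw [← C_mul, inv_mul_cancel₀ hτ, C_1]
    rw [h3, h4]
    simp only [C_pow] at h1 ⊢
    change 1 + X ^ 4 * q.map (ii K) + C τ ^ 2 * _ = _ at h1
    set qq := q.map (ii K)
    set rr := r.map (ii K)
    set b2 := (a2.map (PowerSeries.C (R := K))).map (ii K)
    set b4 := (a4.map (PowerSeries.C (R := K))).map (ii K)
    set b6 := (a6.map (PowerSeries.C (R := K))).map (ii K)
    linear_combination (C τ⁻¹) ^ 2 * h1 - (C (ii K (PowerSeries.C al)) * qq ^ 3 + b2 * qq ^ 2 +
      b4 * qq + b6) * (C τ⁻¹ * C τ + 1) * h5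

end Pool.Agent.Helper71.CT
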