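import Pool.Agent.Helper71.CT.Final
import Pool.Agent.Helper71.CT.Dich
import Pool.Agent.Helper49.CT.ConeMem
import Pool.Agent.Helper9.CT.TowerFib
import Pool.Agent.Helper9.CT.Wgt
import Pool.Agent.Helper29.CQ.Main

/-!
# Towers over the del Pezzo surfaces of degree one
-/

set_option autoImplicit false

namespace Pool.Agent.Helper71.CT

open Pool.Agent.Helper29.CQ Pool.Agent.Helper65.CC Pool.Agent.Helper87.CC

/-- the geometric theorem about double covers of the quadric cone -/
theorem cone_main : Pool.Agent.Helper9.CT.ConeMain := by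
  intro K _ _ G h2 hG al a2 a4 a6 d2 d4 d6 hinf hcyl
  exact Pool.Agent.Helper49.CT.cone_mem hG h2
    (fun c hc hcyl => geo_main h2 hG c hc hcyl) al a2 a4 a6 d2 d4 d6
    (fun hal => dich h2 al hal a2 a4 a6 d2 d4 d6) hinf hcyl

/-- **Towers over the del Pezzo surfaces of degree one.** -/
theorem cone_towers {p : ℕ} (hp : p.Prime) (hp2 : p ≠ 2)
    {P : ∀ (A : Type) [CommRing A], Prop} (hP : FormalClass p P) (k : Type) [Field k] [Finite k]
    [CharP k p] (a b c : ℕ) (habc : List.Perm [a, b, c] [1, 2, 3]) (g : MvPolynomial (Fin 3) k)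
    (hg : ∀ m ∈ g.support, a * m 0 + b * m 1 + 2 * c * m 2 ≤ 6) (n : ℕ) (hn : 0 < n) :
    P (MvPolynomial (Fin 3) k ⧸ Ideal.span {MvPolynomial.bind₁
      ![MvPolynomial.X 0, MvPolynomial.X 1, MvPolynomial.X 2 ^ n] g}) :=
  final hp hp2 hP
    (fun f hf n hn => Pool.Agent.Helper9.CT.wgt_mem cone_main hp hp2 hP k f hf n hn)
    (fun h hh n hn => Pool.Agent.Helper9.CT.tower_mem
      (fun _ _ _ _ h2 hG c hinf hcyl => geo_main h2 hG c hinf hcyl) cone_main hp hp2 hP k h hh n hn)
    a b c habc g hg n hn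

end Pool.Agent.Helper71.CT
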