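import Pool.Agent.Helper71.CT.Quot

/-!
# Towers over the del Pezzo surfaces of degree one: diagonal equations over a curve
-/

set_option autoImplicit false

namespace Pool.Agent.Helper71.CT

open Pool.Agent.Helper29.CQ Pool.Agent.Helper67.CQ Pool.Agent.Helper9.CT
open Pool.Agent.Helper87.CC (IsLC ft_of_surj ft_alg ft_loc Tame)
open MvPolynomial (eval₂ eval₂Hom rename C X monomial)
open TensorProduct

variable {p : ℕ} {P : ∀ (A : Type) [CommRing A], Prop}

/-- diagonal polynomials over a curve -/
theorem diagT (hp : p.Prime) (hP : FormalClass p P) {T : Type} [CommRing T] [CharP T p]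
    (hft : Algebra.FiniteType ℤ T) (hd : ringKrullDim T ≤ 1) (c : T) {s : ℕ}
    (a : Fin s → T) (e : Fin s → ℕ) (he : ∀ i, 0 < e i) :
    P (MvPolynomial (Fin s) T ⧸ Ideal.span {C c + ∑ i, C (a i) * X i ^ e i}) := by
  have hpp : Fact p.Prime := ⟨hp⟩
  set α : Option (Fin s) → Fin s →₀ ℕ := fun j => j.elim 0 fun i => Finsupp.single i (e i) with hα
  set cc : Option (Fin s) → T := fun j => j.elim c a with hcc
  have h1 : AffineIndependent ℚ (fun (j : Option (Fin s)) (i : Fin s) => ((α j i : ℕ) : ℚ)) := by
    rw [affineIndependent_iff]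
    intro S w hw0 hw1
    have h2 : ∀ i : Fin s, some i ∈ S → w (some i) = 0 := by
      intro i hi
      have h3 := congrFun hw1 i
      rw [Finset.sum_apply, Finset.sum_eq_single_of_mem (some i) hi] at h3
      · simp only [hα, Option.elim_some, Pi.smul_apply, Finsupp.single_eq_same, smul_eq_mul,
          Pi.zero_apply, mul_eq_zero] at h3
        rcases h3 with h3 | h3
        · exact h3
        · exact absurd h3 (by exact_mod_cast (he i).ne')
      · intro j _ hj
        rcases j with _ | j
        · simp [hα]
        · have hij : j ≠ i := fun h => hj (by rw [h])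
          simp [hα, Finsupp.single_apply, hij]
    intro j hj
    rcases j with _ | j
    · rw [Finset.sum_eq_single_of_mem none hj] at hw0
      · exact hw0
      · intro b hb hbn
        rcases b with _ | b
        · exact absurd rfl hbn
        · exact h2 b hb
    · exact h2 j hj
  have h3 : Pool.Agent.Helper87.CC.ProductFunctions p (Option (Fin s)) T cc := by
    have h4 := Pool.Agent.Helper87.CC.ProductFunctions.tensor (ZMod p) T (fun _ => 1) cc
      Pool.Agent.Helper87.CC.ProductFunctions.one hft hd
    have h : Pool.Agent.Helper87.CC.IsTen (ZMod.castHom (dvd_refl p) T) (RingHom.id T) := by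
      refine ⟨?_, ?_⟩
      · intro E _ f g
        exact ⟨g, RingHom.ext_zmod _ _, RingHom.comp_id g⟩
      · intro E _ u v _ h2
        rwa [RingHom.comp_id, RingHom.comp_id] at h2
    obtain ⟨e1, h11, h12⟩ := (Pool.Agent.Helper87.CC.isTen (ZMod p) T).equiv h
    have h5 := Pool.Agent.Helper87.CC.ProductFunctions.iso _ _ _ e1 h4
    have h6 : (fun j => e1 ((1 : ZMod p) ⊗ₜ[ℤ] cc j)) = cc := by
      funext j
      exact h12 (cc j)
    rw [h6] at h5
    exact h5
  have h7 := Pool.Agent.Helper87.CC.tameClosed_tame.simplex p (Option (Fin s)) s α h1 T cc h3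
  have h8 : (∑ j, monomial (α j) (cc j) : MvPolynomial (Fin s) T) = C c + ∑ i, C (a i) * X i ^ e i := by
    rw [Fintype.sum_option]
    congr 1
    refine Finset.sum_congr rfl fun i _ => ?_
    rw [MvPolynomial.C_mul_X_pow_eq_monomial]
    rfl
  rw [h8] at h7
  have hpM : ((p : ℕ) : MvPolynomial (Fin s) T) = 0 := by
    rw [← map_natCast (C : T →+* MvPolynomial (Fin s) T), CharP.cast_eq_zero, map_zero]
  exact of_tame hp hP h7 (char_quot hpM _)

/-- the double plane `y ^ 2 = a(x) w ^ n + b(x)` -/
theorem dbl_lin (hp : p.Prime) (hP : FormalClass p P) {k : Type} [Field k] [Finite k] [CharP k p]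
    (a b : Polynomial k) (n : ℕ) (hn : 0 < n) :
    P (Cyc 2 (sub n (Polynomial.aeval (X 0) b + Polynomial.aeval (X 0) a * X 1 :
      MvPolynomial (Fin 2) k))) := by
  have hfk : Algebra.FiniteType ℤ k := by
    have : Module.Finite ℤ k := Module.Finite.of_finite
    infer_instance
  have hfX : Algebra.FiniteType ℤ (Polynomial k) := ft_alg hfk inferInstance
  have hdX : ringKrullDim (Polynomial k) ≤ 1 := by
    rw [Polynomial.ringKrullDim_of_isNoetherianRing, ringKrullDim_eq_zero_of_field]
    simp
  have h := diagT (T := Polynomial k) hp hP hfX hdX (-b) ![1, -a] ![2, n] (by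
    intro i
    fin_cases i
    · exact two_pos
    · exact hn)
  set F : MvPolynomial (Fin 2) (Polynomial k) :=
    C (-b) + ∑ i, C ((![1, -a] : Fin 2 → Polynomial k) i) * X i ^ (![2, n] : Fin 2 → ℕ) i with hF
  have hFe : ∀ (E : Type) [CommRing E] (u : Polynomial k →+* E) (z : Fin 2 → E),
      eval₂ u z F = z 0 ^ 2 - (u a * z 1 ^ n + u b) := by
    intro E _ u z
    rw [hF, Fin.sum_univ_two, MvPolynomial.eval₂_add, MvPolynomial.eval₂_add,
      MvPolynomial.eval₂_C, MvPolynomial.eval₂_mul, MvPolynomial.eval₂_mul, MvPolynomial.eval₂_C,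
      MvPolynomial.eval₂_C, MvPolynomial.eval₂_pow, MvPolynomial.eval₂_pow, MvPolynomial.eval₂_X,
      MvPolynomial.eval₂_X]
    simp only [Matrix.cons_val_zero, Matrix.cons_val_one, map_one, map_neg, one_mul]
    ring
  set Q := Ideal.Quotient.mk (Ideal.span {F}) with hQ
  have hQX : ∀ G : MvPolynomial (Fin 2) (Polynomial k), Q G =
      eval₂ (Q.comp C) (fun i => Q (X i)) G := by
    intro G
    have h2 : eval₂Hom (Q.comp C) (fun i => Q (X i)) = Q := by
      apply MvPolynomial.ringHom_ext
      · intro r; rw [MvPolynomial.eval₂Hom_C]; rfl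
      · intro i; rw [MvPolynomial.eval₂Hom_X']
    exact (RingHom.congr_fun h2 G).symm
  have hrel : Q (X 0) ^ 2 - (Q (C a) * Q (X 1) ^ n + Q (C b)) = 0 := by
    have h1 : Q F = 0 := Ideal.Quotient.eq_zero_iff_mem.2 (Ideal.mem_span_singleton_self F)
    exact ((hFe _ (Q.comp C) fun i => Q (X i)).symm.trans (hQX F).symm).trans h1
  -- the map from the plane
  set i : MvPolynomial (Fin 2) k →+* (MvPolynomial (Fin 2) (Polynomial k) ⧸ Ideal.span {F}) :=
    eval₂Hom ((Q.comp C).comp Polynomial.C) ![Q (C Polynomial.X), Q (X 1)] with hi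
  have hiC : ∀ c, i (C c) = Q (C (Polynomial.C c)) := fun c => by
    rw [hi, MvPolynomial.eval₂Hom_C]
    rfl
  have hi0 : i (X 0) = Q (C Polynomial.X) := by
    rw [hi, MvPolynomial.eval₂Hom_X']
    rfl
  have hi1 : i (X 1) = Q (X 1) := by
    rw [hi, MvPolynomial.eval₂Hom_X']
    rfl
  have hia : ∀ g : Polynomial k, i (Polynomial.aeval (X 0) g) = Q (C g) := by
    intro g
    have h2 : i.comp (Polynomial.aeval (X 0 : MvPolynomial (Fin 2) k)).toRingHom = Q.comp C := by
      apply Polynomial.ringHom_ext
      · intro c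
        change i (Polynomial.aeval (X 0) (Polynomial.C c)) = Q (C (Polynomial.C c))
        rw [Polynomial.aeval_C, ← hiC]
        rfl
      · change i (Polynomial.aeval (X 0) Polynomial.X) = Q (C Polynomial.X)
        rw [Polynomial.aeval_X, hi0]
    exact RingHom.congr_fun h2 g
  have hsub : sub n (Polynomial.aeval (X 0) b + Polynomial.aeval (X 0) a * X 1 :
      MvPolynomial (Fin 2) k) = Polynomial.aeval (X 0) b + Polynomial.aeval (X 0) a * X 1 ^ n := by
    rw [sub, map_add, map_mul, ← Polynomial.aeval_algHom_apply, ← Polynomial.aeval_algHom_apply]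
    simp
  have hK : IsKum i (Q (X 0)) 2 (sub n (Polynomial.aeval (X 0) b + Polynomial.aeval (X 0) a * X 1 :
      MvPolynomial (Fin 2) k)) := by
    rw [hsub]
    refine ⟨?_, ?_, ?_⟩
    · rw [map_add, map_mul, map_pow, hia, hia, hi1]
      linear_combination hrel
    · intro E _ v y hy
      set u : Polynomial k →+* E := v.comp (Polynomial.aeval (X 0 : MvPolynomial (Fin 2) k)).toRingHom
        with hu
      have hug : ∀ g, u g = v (Polynomial.aeval (X 0) g) := fun g => rfl
      have hz : eval₂ u ![y, v (X 1)] F = 0 := by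
        rw [hFe]
        simp only [Matrix.cons_val_zero, Matrix.cons_val_one]
        rw [hug, hug, hy, map_add, map_mul, map_pow]
        ring
      have hker : ∀ G ∈ Ideal.span {F}, eval₂Hom u ![y, v (X 1)] G = 0 := by
        intro G hG
        obtain ⟨t, rfl⟩ := Ideal.mem_span_singleton'.1 hG
        rw [map_mul]
        have : eval₂Hom u ![y, v (X 1)] F = 0 := hz
        rw [this, mul_zero]
      have hlift : ∀ G, Ideal.Quotient.lift (Ideal.span {F}) (eval₂Hom u ![y, v (X 1)]) hker (Q G) =
          eval₂Hom u ![y, v (X 1)] G := fun G => Ideal.Quotient.lift_mk _ _ _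
      refine ⟨Ideal.Quotient.lift (Ideal.span {F}) (eval₂Hom u ![y, v (X 1)]) hker, ?_, ?_⟩
      · apply MvPolynomial.ringHom_ext
        · intro c
          rw [RingHom.comp_apply, hiC, hlift, MvPolynomial.eval₂Hom_C, hug, Polynomial.aeval_C]
          rfl
        · intro j
          rw [RingHom.comp_apply]
          fin_cases j
          · change _ = v (X 0)
            refine (congrArg _ hi0).trans ?_
            rw [hlift, MvPolynomial.eval₂Hom_C, hug, Polynomial.aeval_X]
          · change _ = v (X 1)
            refine (congrArg _ hi1).trans ?_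
            rw [hlift, MvPolynomial.eval₂Hom_X']
            rfl
      · rw [hlift, MvPolynomial.eval₂Hom_X']
        rfl
    · intro E _ g g' h1 h2
      apply Ideal.Quotient.ringHom_ext
      apply MvPolynomial.ringHom_ext
      · intro r
        have h3 := RingHom.congr_fun h1 (Polynomial.aeval (X 0) r)
        rw [RingHom.comp_apply, RingHom.comp_apply, hia] at h3
        exact h3
      · intro j
        fin_cases j
        · exact h2
        · have h3 := RingHom.congr_fun h1 (X 1)
          rw [RingHom.comp_apply, RingHom.comp_apply, hi1] at h3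
          exact h3
  exact iso_kum hP hK (isKum_std 2 _) h

end Pool.Agent.Helper71.CT
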