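import Pool.Agent.Helper71.CT.DiagT

/-!
# Towers over the del Pezzo surfaces of degree one: the last assembly
-/

set_option autoImplicit false

namespace Pool.Agent.Helper71.CT

open Pool.Agent.Helper29.CQ Pool.Agent.Helper67.CQ Pool.Agent.Helper9.CT
open Polynomial

variable {p : ℕ} {P : ∀ (A : Type) [CommRing A], Prop}

section

variable {k : Type} [Field k]

/-- the isomorphism `k[x, t][y] → k[x₀, x₁, x₂]` for an ordering of the variables -/
noncomputable def E (k : Type) [Field k] (σ : Equiv.Perm (Fin 3)) :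
    Polynomial (MvPolynomial (Fin 2) k) ≃ₐ[k] MvPolynomial (Fin 3) k :=
  (MvPolynomial.finSuccEquiv k 2).symm.trans (MvPolynomial.renameEquiv k σ)

theorem E_X (σ : Equiv.Perm (Fin 3)) : E k σ X = MvPolynomial.X (σ 0) := by
  have h : (MvPolynomial.finSuccEquiv k 2).symm X = MvPolynomial.X 0 := by
    rw [AlgEquiv.symm_apply_eq, MvPolynomial.finSuccEquiv_X_zero]
  change MvPolynomial.renameEquiv k σ ((MvPolynomial.finSuccEquiv k 2).symm X) = _
  rw [h, MvPolynomial.renameEquiv_apply, MvPolynomial.rename_X]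

theorem E_C (σ : Equiv.Perm (Fin 3)) (i : Fin 2) :
    E k σ (C (MvPolynomial.X i)) = MvPolynomial.X (σ i.succ) := by
  have h : (MvPolynomial.finSuccEquiv k 2).symm (C (MvPolynomial.X i)) = MvPolynomial.X i.succ := by
    rw [AlgEquiv.symm_apply_eq, MvPolynomial.finSuccEquiv_X_succ]
  change MvPolynomial.renameEquiv k σ ((MvPolynomial.finSuccEquiv k 2).symm _) = _
  rw [h, MvPolynomial.renameEquiv_apply, MvPolynomial.rename_X]

/-- the weights -/
theorem supp (σ : Equiv.Perm (Fin 3)) (w : Fin 3 → ℕ) (g : MvPolynomial (Fin 3) k)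
    (hg : ∀ m ∈ g.support, w 0 * m 0 + w 1 * m 1 + w 2 * m 2 ≤ 6) (i : ℕ) (m : Fin 2 →₀ ℕ)
    (hm : m ∈ (((E k σ).symm g).coeff i).support) :
    w (σ 0) * i + w (σ 1) * m 0 + w (σ 2) * m 1 ≤ 6 := by
  have h1 : (E k σ).symm g = MvPolynomial.finSuccEquiv k 2 (MvPolynomial.rename σ.symm g) := rfl
  rw [MvPolynomial.mem_support_iff, h1, MvPolynomial.finSuccEquiv_coeff_coeff] at hm
  set d : Fin 3 →₀ ℕ := (m.cons i).mapDomain σ with hd
  have h2 : m.cons i = d.mapDomain σ.symm := by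
    rw [hd, ← Finsupp.mapDomain_comp, Equiv.symm_comp_self, Finsupp.mapDomain_id]
  rw [h2, MvPolynomial.coeff_rename_mapDomain _ σ.symm.injective] at hm
  have h3 := hg d (MvPolynomial.mem_support_iff.2 hm)
  have h4 : ∀ j, d (σ j) = (m.cons i) j := fun j => Finsupp.mapDomain_apply σ.injective _ _
  have h5 : w 0 * d 0 + w 1 * d 1 + w 2 * d 2 = ∑ j, w j * d j :=
    (Fin.sum_univ_three fun j => w j * d j).symm
  have h6 : ∑ j, w j * d j = ∑ j, w (σ j) * d (σ j) := (Equiv.sum_comp σ fun j => w j * d j).symm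
  rw [h5, h6, Fin.sum_univ_three, h4, h4, h4] at h3
  exact h3

/-- from the presentation in one variable over the plane -/
theorem of_adjoin (hP : FormalClass p P) (σ : Equiv.Perm (Fin 3))
    (φ : Polynomial (MvPolynomial (Fin 2) k)) (h : P (AdjoinRoot φ)) :
    P (MvPolynomial (Fin 3) k ⧸ Ideal.span {E k σ φ}) := by
  have e : AdjoinRoot φ ≃+* MvPolynomial (Fin 3) k ⧸ Ideal.span {E k σ φ} :=
    Ideal.quotientEquiv (Ideal.span {φ}) (Ideal.span {E k σ φ}) (E k σ).toRingEquiv (by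
      rw [Ideal.map_span, Set.image_singleton]
      rfl)
  exact hP.iso _ _ e h

/-- the polynomial `g(x, y, w ^ n)` -/
noncomputable def sub3 (n : ℕ) : MvPolynomial (Fin 3) k →ₐ[k] MvPolynomial (Fin 3) k :=
  MvPolynomial.bind₁ ![MvPolynomial.X 0, MvPolynomial.X 1, MvPolynomial.X 2 ^ n]

theorem sub3_X (n : ℕ) (j : Fin 3) : sub3 n (MvPolynomial.X j : MvPolynomial (Fin 3) k) =
    if j = 2 then MvPolynomial.X j ^ n else MvPolynomial.X j := by
  rw [sub3, MvPolynomial.bind₁_X_right]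
  fin_cases j
  · rfl
  · rfl
  · rfl

theorem sub3_E (n : ℕ) (σ : Equiv.Perm (Fin 3)) (h2 : σ 2 = 2)
    (φ : Polynomial (MvPolynomial (Fin 2) k)) :
    sub3 n (E k σ φ) = E k σ (φ.map ((MvPolynomial.bind₁ ![MvPolynomial.X 0, MvPolynomial.X 1 ^ n] :
      MvPolynomial (Fin 2) k →ₐ[k] MvPolynomial (Fin 2) k) : _ →+* _)) := by
  have h0 : σ 0 ≠ 2 := fun h => absurd (σ.injective (h.trans h2.symm)) (by decide)
  have h1 : σ 1 ≠ 2 := fun h => absurd (σ.injective (h.trans h2.symm)) (by decide)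
  have h : ((sub3 n).toRingHom.comp (E k σ).toRingEquiv.toRingHom) =
      (E k σ).toRingEquiv.toRingHom.comp (mapRingHom
        ((MvPolynomial.bind₁ ![MvPolynomial.X 0, MvPolynomial.X 1 ^ n] :
          MvPolynomial (Fin 2) k →ₐ[k] MvPolynomial (Fin 2) k) : _ →+* _)) := by
    refine Polynomial.ringHom_ext' (MvPolynomial.ringHom_ext ?_ ?_) ?_
    · intro c
      change sub3 n (E k σ (C (MvPolynomial.C c))) = E k σ (Polynomial.map _ (C (MvPolynomial.C c)))
      have h3 : (C (MvPolynomial.C c) : Polynomial (MvPolynomial (Fin 2) k)) = algebraMap k _ c := rfl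
      rw [Polynomial.map_C, RingHom.coe_coe, MvPolynomial.bind₁_C_right, h3, AlgEquiv.commutes,
        AlgHom.commutes]
    · intro j
      change sub3 n (E k σ (C (MvPolynomial.X j))) = E k σ (Polynomial.map _ (C (MvPolynomial.X j)))
      rw [Polynomial.map_C, RingHom.coe_coe, MvPolynomial.bind₁_X_right, E_C, sub3_X]
      fin_cases j
      · change (if σ 1 = 2 then _ else _) = E k σ (C (MvPolynomial.X 0))
        rw [if_neg h1, E_C]
        rfl
      · change (if σ 2 = 2 then MvPolynomial.X (σ 2) ^ n else _) = E k σ (C (MvPolynomial.X 1 ^ n))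
        rw [if_pos h2, C_pow, map_pow, E_C]
        rfl
    · change sub3 n (E k σ X) = E k σ (Polynomial.map _ X)
      rw [Polynomial.map_X, E_X, sub3_X, if_neg h0]
  exact RingHom.congr_fun h φ

theorem sub3_E' (n : ℕ) (σ : Equiv.Perm (Fin 3)) (h2 : σ 0 = 2) (e f : MvPolynomial (Fin 2) k) :
    sub3 n (E k σ (C e * X + C f)) = E k σ (C e * X ^ n + C f) := by
  have h0 : σ 1 ≠ 2 := fun h => absurd (σ.injective (h.trans h2.symm)) (by decide)
  have h1 : σ 2 ≠ 2 := fun h => absurd (σ.injective (h.trans h2.symm)) (by decide)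
  have h : (((sub3 n).toRingHom.comp (E k σ).toRingEquiv.toRingHom)).comp C =
      (E k σ).toRingEquiv.toRingHom.comp C := by
    refine MvPolynomial.ringHom_ext ?_ ?_
    · intro c
      change sub3 n (E k σ (C (MvPolynomial.C c))) = E k σ (C (MvPolynomial.C c))
      have h3 : (C (MvPolynomial.C c) : Polynomial (MvPolynomial (Fin 2) k)) = algebraMap k _ c := rfl
      rw [h3, AlgEquiv.commutes, AlgHom.commutes]
    · intro j
      change sub3 n (E k σ (C (MvPolynomial.X j))) = E k σ (C (MvPolynomial.X j))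
      rw [E_C, sub3_X]
      fin_cases j
      · exact if_neg h0
      · exact if_neg h1
  have h' : ∀ f, sub3 n (E k σ (C f)) = E k σ (C f) := fun f => RingHom.congr_fun h f
  rw [map_add, map_add, map_mul, map_mul, h', h', E_X, sub3_X, if_pos h2, map_add, map_mul, map_pow,
    E_X]

theorem const_of {g : MvPolynomial (Fin 2) k} (h : ∀ m ∈ g.support, m 0 = 0 ∧ m 1 = 0) :
    g = MvPolynomial.C (g.coeff 0) := by
  apply MvPolynomial.ext
  intro m
  rw [MvPolynomial.coeff_C]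
  split_ifs with hm
  · rw [hm]
  · by_contra hc
    apply hm
    obtain ⟨h0, h1⟩ := h m (MvPolynomial.mem_support_iff.2 hc)
    ext i
    fin_cases i
    · exact h0.symm
    · exact h1.symm

theorem lin_of {g : MvPolynomial (Fin 2) k} (h : ∀ m ∈ g.support, m 1 ≤ 1) :
    ∃ a b : k[X], g = aeval (MvPolynomial.X 0) b + aeval (MvPolynomial.X 0) a * MvPolynomial.X 1 := by
  have key : ∀ S : Finset (Fin 2 →₀ ℕ), S ⊆ g.support → ∃ a b : k[X],
      ∑ m ∈ S, MvPolynomial.monomial m (g.coeff m) =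
        aeval (MvPolynomial.X 0) b + aeval (MvPolynomial.X 0) a * MvPolynomial.X 1 := by
    intro S
    induction S using Finset.induction_on with
    | empty => exact fun _ => ⟨0, 0, by simp⟩
    | insert m S hm ih =>
      intro hS
      obtain ⟨a, b, hab⟩ := ih ((Finset.subset_insert _ _).trans hS)
      rw [Finset.sum_insert hm, hab]
      have h1 := h m (hS (Finset.mem_insert_self _ _))
      have h2 : (MvPolynomial.monomial m (g.coeff m) : MvPolynomial (Fin 2) k) =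
          MvPolynomial.C (g.coeff m) * (MvPolynomial.X 0 ^ m 0 * MvPolynomial.X 1 ^ m 1) := by
        rw [MvPolynomial.monomial_eq, Finsupp.prod_fintype _ _ (by simp), Fin.prod_univ_two]
      rw [h2]
      interval_cases h3 : m 1
      · refine ⟨a, b + C (g.coeff m) * X ^ m 0, ?_⟩
        rw [map_add, map_mul, map_pow, aeval_X, aeval_C, MvPolynomial.algebraMap_eq]
        ring
      · refine ⟨a + C (g.coeff m) * X ^ m 0, b, ?_⟩
        rw [map_add, map_mul, map_pow, aeval_X, aeval_C, MvPolynomial.algebraMap_eq]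
        ring
  obtain ⟨a, b, hab⟩ := key _ subset_rfl
  refine ⟨a, b, ?_⟩
  rw [← hab]
  exact g.as_sum

theorem x_of {g : MvPolynomial (Fin 2) k} (h : ∀ m ∈ g.support, m 1 = 0) :
    ∃ b : k[X], g = aeval (MvPolynomial.X 0) b := by
  refine ⟨∑ m ∈ g.support, C (g.coeff m) * X ^ m 0, ?_⟩
  conv_lhs => rw [g.as_sum]
  rw [map_sum]
  refine Finset.sum_congr rfl fun m hm => ?_
  rw [MvPolynomial.monomial_eq, Finsupp.prod_fintype _ _ (by simp), Fin.prod_univ_two, h m hm,
    pow_zero, mul_one, map_mul, map_pow, aeval_X, aeval_C, MvPolynomial.algebraMap_eq]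

theorem td_le {g : MvPolynomial (Fin 2) k} {d : ℕ} (h : ∀ m ∈ g.support, m 0 + m 1 ≤ d) :
    g.totalDegree ≤ d := by
  refine Finset.sup_le fun m hm => ?_
  rw [Finsupp.sum_fintype _ _ (fun _ => rfl), Fin.sum_univ_two]
  exact h m hm

theorem supp_zero {R : Type} [CommRing R] {g : MvPolynomial (Fin 2) R} (h : ∀ m ∈ g.support, False) :
    g = 0 := by
  rw [← MvPolynomial.support_eq_empty]
  exact Finset.eq_empty_of_forall_notMem h

/-- the case of the variable `t` of weight `6` -/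
theorem case_T [Finite k] [CharP k p] (hP : FormalClass p P)
    (hT1 : ∀ (f : MvPolynomial (Fin 2) k), (∀ m ∈ f.support, m 0 + 2 * m 1 ≤ 6) →
      ∀ n : ℕ, 0 < n → P (Cyc n f))
    (σ : Equiv.Perm (Fin 3)) (hσ : σ 0 = 2) (w : Fin 3 → ℕ) (hw0 : w (σ 0) = 6) (hw1 : w (σ 1) = 1)
    (hw2 : w (σ 2) = 2) (g : MvPolynomial (Fin 3) k)
    (hg : ∀ m ∈ g.support, w 0 * m 0 + w 1 * m 1 + w 2 * m 2 ≤ 6) (n : ℕ) (hn : 0 < n) :
    P (MvPolynomial (Fin 3) k ⧸ Ideal.span {sub3 n g}) := by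
  have hk : (p : k) = 0 := CharP.cast_eq_zero k p
  set G := (E k σ).symm g with hG
  have hs := supp σ w g hg
  rw [hw0, hw1, hw2, ← hG] at hs
  have hdeg : G.natDegree ≤ 1 := by
    rw [natDegree_le_iff_coeff_eq_zero]
    intro i hi
    refine supp_zero fun m hm => ?_
    have := hs i m hm
    omega
  have hGe := eq_X_add_C_of_natDegree_le_one hdeg
  have he : G.coeff 1 = MvPolynomial.C ((G.coeff 1).coeff 0) := const_of fun m hm => by
    have := hs 1 m hm
    omega
  set e := (G.coeff 1).coeff 0 with he'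
  set f := G.coeff 0 with hf
  have hgE : g = E k σ (C (MvPolynomial.C e) * X + C f) := by
    rw [← he, ← hGe, hG, AlgEquiv.apply_symm_apply]
  have hfs : ∀ m ∈ f.support, m 0 + 2 * m 1 ≤ 6 := fun m hm => by
    have := hs 0 m hm
    omega
  rw [hgE, sub3_E' n σ hσ]
  apply of_adjoin hP
  by_cases he0 : e = 0
  · have h1 := linear hP hk 0 f
    rw [he0, map_zero, map_zero, zero_mul]
    rwa [map_zero, zero_mul] at h1
  · have hc : (MvPolynomial.C e * MvPolynomial.C e⁻¹ : MvPolynomial (Fin 2) k) = 1 := by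
      rw [← MvPolynomial.C_mul, mul_inv_cancel₀ he0, MvPolynomial.C_1]
    refine iso_kum hP (isKum_std n _) (isKum_lin n _ f _ hc) ?_
    apply hT1 _ _ n hn
    intro m hm
    apply hfs
    rw [MvPolynomial.mem_support_iff] at hm ⊢
    intro h0
    apply hm
    rw [MvPolynomial.coeff_neg, MvPolynomial.coeff_C_mul, h0, mul_zero, neg_zero]

/-- the coefficients of `1`, `y`, `y ^ 2` -/
theorem quad_form (σ : Equiv.Perm (Fin 3)) (w : Fin 3 → ℕ) (hw0 : w (σ 0) = 3)
    (hw1 : 0 < w (σ 1)) (hw2 : 0 < w (σ 2)) (g : MvPolynomial (Fin 3) k)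
    (hg : ∀ m ∈ g.support, w 0 * m 0 + w 1 * m 1 + w 2 * m 2 ≤ 6) :
    ∃ (e : k) (l h : MvPolynomial (Fin 2) k),
      g = E k σ (C (MvPolynomial.C e) * X ^ 2 + C l * X + C h) ∧
      (∀ m ∈ l.support, w (σ 1) * m 0 + w (σ 2) * m 1 ≤ 3) ∧
      (∀ m ∈ h.support, w (σ 1) * m 0 + w (σ 2) * m 1 ≤ 6) := by
  set G := (E k σ).symm g with hG
  have hs := supp σ w g hg
  rw [hw0, ← hG] at hs
  have hdeg : G.degree ≤ 2 := by
    rw [degree_le_iff_coeff_zero]
    intro i hi
    have hi' : 2 < i := by exact_mod_cast hi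
    refine supp_zero fun m hm => ?_
    have := hs i m hm
    omega
  have hGe := eq_quadratic_of_degree_le_two hdeg
  have he : G.coeff 2 = MvPolynomial.C ((G.coeff 2).coeff 0) := const_of fun m hm => by
    have h1 := hs 2 m hm
    constructor
    · by_contra h2
      have := Nat.mul_pos hw1 (Nat.pos_of_ne_zero h2)
      omega
    · by_contra h2
      have := Nat.mul_pos hw2 (Nat.pos_of_ne_zero h2)
      omega
  refine ⟨(G.coeff 2).coeff 0, G.coeff 1, G.coeff 0, ?_, ?_, ?_⟩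
  · rw [← he, ← hGe, hG, AlgEquiv.apply_symm_apply]
  · intro m hm
    have := hs 1 m hm
    omega
  · intro m hm
    have := hs 0 m hm
    omega

theorem map_quad (n : ℕ) (e : k) (l h : MvPolynomial (Fin 2) k) :
    (C (MvPolynomial.C e) * X ^ 2 + C l * X + C h : Polynomial (MvPolynomial (Fin 2) k)).map
      ((MvPolynomial.bind₁ ![MvPolynomial.X 0, MvPolynomial.X 1 ^ n] :
      MvPolynomial (Fin 2) k →ₐ[k] MvPolynomial (Fin 2) k) : _ →+* _) =
    C (MvPolynomial.C e) * X ^ 2 + C (sub n l) * X + C (sub n h) := by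
  simp only [Polynomial.map_add, Polynomial.map_mul, Polynomial.map_pow, map_C, map_X,
    RingHom.coe_coe, MvPolynomial.bind₁_C_right]
  rfl

/-- the case of the variable `t` of weight at most `4` -/
theorem case_Y [Finite k] [CharP k p] (hp : p.Prime) (hp2 : p ≠ 2) (hP : FormalClass p P)
    (σ : Equiv.Perm (Fin 3)) (hσ : σ 2 = 2) (n : ℕ) (e : k) (l h : MvPolynomial (Fin 2) k)
    (hT : e ≠ 0 → ∀ c : k, P (Cyc 2 (sub n ((MvPolynomial.C c * l) ^ 2 -
      2 * MvPolynomial.C c * h)))) :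
    P (MvPolynomial (Fin 3) k ⧸
      Ideal.span {sub3 n (E k σ (C (MvPolynomial.C e) * X ^ 2 + C l * X + C h))}) := by
  have hk : (p : k) = 0 := CharP.cast_eq_zero k p
  rw [sub3_E n σ hσ, map_quad]
  apply of_adjoin hP
  by_cases he0 : e = 0
  · have h1 := linear hP hk (sub n l) (sub n h)
    rwa [he0, map_zero, map_zero, zero_mul, zero_add]
  · have h2 : (2 : k) ≠ 0 := by
      intro h2
      have h3 : ((2 : ℕ) : k) = 0 := by exact_mod_cast h2
      rw [CharP.cast_eq_zero_iff k p] at h3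
      exact hp2 ((Nat.prime_dvd_prime_iff_eq hp Nat.prime_two).1 h3)
    have hc : (2 * MvPolynomial.C e * MvPolynomial.C (2 * e)⁻¹ : MvPolynomial (Fin 2) k) = 1 := by
      have h3 : (2 : MvPolynomial (Fin 2) k) = MvPolynomial.C 2 := (map_ofNat _ 2).symm
      rw [h3, ← MvPolynomial.C_mul, ← MvPolynomial.C_mul, mul_inv_cancel₀ (mul_ne_zero h2 he0),
        MvPolynomial.C_1]
    have hK := isKum_quad _ (sub n l) (sub n h) _ hc
    refine iso_kum hP (isKum_std 2 _) hK ?_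
    have h3 := hT he0 (2 * e)⁻¹
    have h4 : sub n ((MvPolynomial.C (2 * e)⁻¹ * l) ^ 2 - 2 * MvPolynomial.C (2 * e)⁻¹ * h) =
        (MvPolynomial.C (2 * e)⁻¹ * sub n l) ^ 2 - 2 * MvPolynomial.C (2 * e)⁻¹ * sub n h := by
      simp only [sub, map_sub, map_mul, map_pow, map_ofNat, MvPolynomial.bind₁_C_right]
    rwa [h4] at h3

theorem case_E [Finite k] [CharP k p] (hp : p.Prime) (hp2 : p ≠ 2) (hP : FormalClass p P)
    (hT2 : ∀ (h : MvPolynomial (Fin 2) k), h.totalDegree ≤ 3 → ∀ n : ℕ, 0 < n → P (Cyc 2 (sub n h)))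
    (σ : Equiv.Perm (Fin 3)) (hσ : σ 2 = 2) (w : Fin 3 → ℕ) (hw0 : w (σ 0) = 3) (hw1 : w (σ 1) = 2)
    (hw2 : w (σ 2) = 2) (g : MvPolynomial (Fin 3) k)
    (hg : ∀ m ∈ g.support, w 0 * m 0 + w 1 * m 1 + w 2 * m 2 ≤ 6) (n : ℕ) (hn : 0 < n) :
    P (MvPolynomial (Fin 3) k ⧸ Ideal.span {sub3 n g}) := by
  obtain ⟨e, l, h, rfl, hl, hh⟩ := quad_form σ w hw0 (by omega) (by omega) g hg
  refine case_Y hp hp2 hP σ hσ n e l h fun _ c => ?_
  rw [hw1, hw2] at hl hh
  have hl' : l.totalDegree ≤ 1 := td_le fun m hm => by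
    have := hl m hm
    omega
  have hh' : h.totalDegree ≤ 3 := td_le fun m hm => by
    have := hh m hm
    omega
  apply hT2 _ _ n hn
  refine (MvPolynomial.totalDegree_sub _ _).trans (max_le ?_ ?_)
  · refine (MvPolynomial.totalDegree_pow _ _).trans ?_
    have h1 := (MvPolynomial.totalDegree_mul (MvPolynomial.C c) l)
    rw [MvPolynomial.totalDegree_C] at h1
    omega
  · have h3 : (2 : MvPolynomial (Fin 2) k) = MvPolynomial.C 2 := (map_ofNat _ 2).symm
    rw [h3, ← MvPolynomial.C_mul]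
    have h1 := (MvPolynomial.totalDegree_mul (MvPolynomial.C (2 * c)) h)
    rw [MvPolynomial.totalDegree_C] at h1
    omega

theorem case_L [Finite k] [CharP k p] (hp : p.Prime) (hp2 : p ≠ 2) (hP : FormalClass p P)
    (σ : Equiv.Perm (Fin 3)) (hσ : σ 2 = 2) (w : Fin 3 → ℕ) (hw0 : w (σ 0) = 3) (hw1 : w (σ 1) = 1)
    (hw2 : w (σ 2) = 4) (g : MvPolynomial (Fin 3) k)
    (hg : ∀ m ∈ g.support, w 0 * m 0 + w 1 * m 1 + w 2 * m 2 ≤ 6) (n : ℕ) (hn : 0 < n) :
    P (MvPolynomial (Fin 3) k ⧸ Ideal.span {sub3 n g}) := by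
  obtain ⟨e, l, h, rfl, hl, hh⟩ := quad_form σ w hw0 (by omega) (by omega) g hg
  refine case_Y hp hp2 hP σ hσ n e l h fun _ c => ?_
  rw [hw1, hw2] at hl hh
  have hl' : ∀ m ∈ l.support, m 1 = 0 := fun m hm => by
    have := hl m hm
    omega
  obtain ⟨a, b, rfl⟩ := lin_of (g := h) fun m hm => by
    have := hh m hm
    omega
  obtain ⟨b', rfl⟩ := x_of hl'
  have h1 : (MvPolynomial.C c * (aeval (MvPolynomial.X 0)) b') ^ 2 - 2 * MvPolynomial.C c *
      ((aeval (MvPolynomial.X 0)) b + (aeval (MvPolynomial.X 0)) a * MvPolynomial.X 1) =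
      aeval (MvPolynomial.X 0) ((C c * b') ^ 2 - 2 * C c * b) +
        aeval (MvPolynomial.X 0) (- (2 * C c * a)) * (MvPolynomial.X 1 : MvPolynomial (Fin 2) k) := by
    simp only [map_sub, map_mul, map_pow, map_neg, map_ofNat, aeval_C, MvPolynomial.algebraMap_eq]
    ring
  rw [h1]
  exact dbl_lin hp hP _ _ n hn

/-- **the last assembly** -/
theorem final [Finite k] [CharP k p] (hp : p.Prime) (hp2 : p ≠ 2) (hP : FormalClass p P)
    (hT1 : ∀ (f : MvPolynomial (Fin 2) k), (∀ m ∈ f.support, m 0 + 2 * m 1 ≤ 6) →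
      ∀ n : ℕ, 0 < n → P (Cyc n f))
    (hT2 : ∀ (h : MvPolynomial (Fin 2) k), h.totalDegree ≤ 3 → ∀ n : ℕ, 0 < n → P (Cyc 2 (sub n h)))
    (a b c : ℕ) (habc : List.Perm [a, b, c] [1, 2, 3]) (g : MvPolynomial (Fin 3) k)
    (hg : ∀ m ∈ g.support, a * m 0 + b * m 1 + 2 * c * m 2 ≤ 6) (n : ℕ) (hn : 0 < n) :
    P (MvPolynomial (Fin 3) k ⧸ Ideal.span {sub3 n g}) := by
  set w : Fin 3 → ℕ := ![a, b, 2 * c] with hw
  have h0 : w 0 = a := rfl
  have h1 : w 1 = b := rfl
  have h2 : w 2 = 2 * c := rfl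
  have hg' : ∀ m ∈ g.support, w 0 * m 0 + w 1 * m 1 + w 2 * m 2 ≤ 6 := hg
  have hcases : (a = 1 ∧ b = 2 ∧ c = 3) ∨ (a = 2 ∧ b = 1 ∧ c = 3) ∨ (a = 1 ∧ b = 3 ∧ c = 2) ∨
      (a = 3 ∧ b = 1 ∧ c = 2) ∨ (a = 2 ∧ b = 3 ∧ c = 1) ∨ (a = 3 ∧ b = 2 ∧ c = 1) := by
    have e1 := habc.sum_eq
    have e2 := habc.prod_eq
    have e3 : a ∈ [1, 2, 3] := habc.subset (by simp)
    have e4 : b ∈ [1, 2, 3] := habc.subset (by simp)
    simp only [List.sum_cons, List.sum_nil, List.prod_cons, List.prod_nil, List.mem_cons,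
      List.not_mem_nil, or_false] at e1 e2 e3 e4
    rcases e3 with rfl | rfl | rfl <;> rcases e4 with rfl | rfl | rfl <;> omega
  rcases hcases with ⟨rfl, rfl, rfl⟩ | ⟨rfl, rfl, rfl⟩ | ⟨rfl, rfl, rfl⟩ | ⟨rfl, rfl, rfl⟩ |
    ⟨rfl, rfl, rfl⟩ | ⟨rfl, rfl, rfl⟩
  · exact case_T hP hT1 (finRotate 3).symm (by decide) w (by decide) (by decide) (by decide) g hg' n hn
  · exact case_T hP hT1 (Equiv.swap 0 2) (by decide) w (by decide) (by decide) (by decide) g hg' n hn
  · exact case_L hp hp2 hP (Equiv.swap 0 1) (by decide) w (by decide) (by decide) (by decide) g hg' n hn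
  · exact case_L hp hp2 hP (Equiv.refl _) rfl w rfl rfl rfl g hg' n hn
  · exact case_E hp hp2 hP hT2 (Equiv.swap 0 1) (by decide) w (by decide) (by decide) (by decide) g hg' n hn
  · exact case_E hp hp2 hP hT2 (Equiv.refl _) rfl w rfl rfl rfl g hg' n hn

end

end Pool.Agent.Helper71.CT
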