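import Pool.Agent.Helper9.CT.Tower
import Pool.Agent.Helper67.CQ.Join2

/-!
# Towers over the del Pezzo surfaces of degree one: linear and quadratic presentations
-/

set_option autoImplicit false

namespace Pool.Agent.Helper71.CT

open Pool.Agent.Helper29.CQ Pool.Agent.Helper67.CQ Pool.Agent.Helper9.CT
open Pool.Agent.Helper87.CC (IsLC ft_of_surj ft_alg ft_loc Tame)
open Polynomial

variable {p : ℕ} {P : ∀ (A : Type) [CommRing A], Prop}

/-! ### Kummer extensions from quadratic polynomials -/

theorem isKum_quad {R : Type} [CommRing R] (e l h c : R) (hc : 2 * e * c = 1) :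
    IsKum (AdjoinRoot.of (C e * X ^ 2 + C l * X + C h : R[X]))
      (AdjoinRoot.root (C e * X ^ 2 + C l * X + C h : R[X]) +
        AdjoinRoot.of (C e * X ^ 2 + C l * X + C h : R[X]) (c * l)) 2 ((c * l) ^ 2 - 2 * c * h) where
  rel := by
    have h1 := AdjoinRoot.eval₂_root (C e * X ^ 2 + C l * X + C h : R[X])
    simp only [eval₂_add, eval₂_mul, eval₂_C, eval₂_X_pow, eval₂_X] at h1
    have h2 := congrArg (AdjoinRoot.of (C e * X ^ 2 + C l * X + C h : R[X])) hc
    simp only [map_mul, map_ofNat, map_one] at h2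
    simp only [map_mul, map_ofNat, map_sub, map_pow]
    set o := AdjoinRoot.of (C e * X ^ 2 + C l * X + C h : R[X]) with ho
    set y := AdjoinRoot.root (C e * X ^ 2 + C l * X + C h : R[X]) with hy
    linear_combination (2 * o c) * h1 - (y ^ 2 + 2 * y * o c * o l) * h2 + 2 * y * o c * o l * h2
  ex E _ v y hy := by
    have hc' := congrArg v hc
    simp only [map_mul, map_ofNat, map_one] at hc'
    simp only [map_sub, map_mul, map_ofNat, map_pow] at hy
    have h1 : (C e * X ^ 2 + C l * X + C h : R[X]).eval₂ v (y - v (c * l)) = 0 := by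
      simp only [eval₂_add, eval₂_mul, eval₂_C, eval₂_X_pow, eval₂_X, map_mul]
      linear_combination (v e) * hy + (-(v h)) * hc' - (v l * y - v c * v l ^ 2) * hc'
    refine ⟨AdjoinRoot.lift v (y - v (c * l)) h1, AdjoinRoot.lift_comp_of h1, ?_⟩
    rw [map_add, AdjoinRoot.lift_root h1, AdjoinRoot.lift_of h1, sub_add_cancel]
  uniq E _ g g' h1 h2 := by
    refine AdjoinRoot.ringHom_ext h1 ?_
    have h3 := RingHom.congr_fun h1 (c * l)
    rw [RingHom.comp_apply, RingHom.comp_apply] at h3
    rw [map_add, map_add, h3] at h2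
    exact add_right_cancel h2

theorem isKum_lin {R : Type} [CommRing R] (n : ℕ) (e f c : R) (hc : e * c = 1) :
    IsKum (AdjoinRoot.of (C e * X ^ n + C f : R[X]))
      (AdjoinRoot.root (C e * X ^ n + C f : R[X])) n (-(c * f)) where
  rel := by
    have h1 := AdjoinRoot.eval₂_root (C e * X ^ n + C f : R[X])
    simp only [eval₂_add, eval₂_mul, eval₂_C, eval₂_X_pow] at h1
    have h2 := congrArg (AdjoinRoot.of (C e * X ^ n + C f : R[X])) hc
    simp only [map_mul, map_one] at h2
    simp only [map_mul, map_neg]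
    set o := AdjoinRoot.of (C e * X ^ n + C f : R[X]) with ho
    set y := AdjoinRoot.root (C e * X ^ n + C f : R[X]) with hy
    linear_combination (o c) * h1 - y ^ n * h2
  ex E _ v y hy := by
    have hc' := congrArg v hc
    simp only [map_mul, map_one] at hc'
    simp only [map_neg, map_mul] at hy
    have h1 : (C e * X ^ n + C f : R[X]).eval₂ v y = 0 := by
      simp only [eval₂_add, eval₂_mul, eval₂_C, eval₂_X_pow]
      linear_combination (v e) * hy - (v f) * hc'
    exact ⟨AdjoinRoot.lift v y h1, AdjoinRoot.lift_comp_of h1, AdjoinRoot.lift_root h1⟩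
  uniq E _ g g' h1 h2 := AdjoinRoot.ringHom_ext h1 h2

/-! ### linear equations -/

section

/-- `B = R[y]/(l y + h)` -/
structure IsLin {R B : Type} [CommRing R] [CommRing B] (o : R →+* B) (y : B) (l h : R) : Prop where
  rel : o l * y + o h = 0
  ex : ∀ (E : Type) [CommRing E] (v : R →+* E) (c : E), v l * c + v h = 0 →
    ∃ g : B →+* E, g.comp o = v ∧ g y = c
  uniq : ∀ (E : Type) [CommRing E] (g g' : B →+* E), g.comp o = g'.comp o → g y = g' y → g = g'

theorem isLin_std {R : Type} [CommRing R] (l h : R) :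
    IsLin (AdjoinRoot.of (C l * X + C h : R[X])) (AdjoinRoot.root (C l * X + C h : R[X])) l h where
  rel := by
    have h1 := AdjoinRoot.eval₂_root (C l * X + C h : R[X])
    simp only [eval₂_add, eval₂_mul, eval₂_C, eval₂_X] at h1
    exact h1
  ex E _ v c hc := by
    have h1 : (C l * X + C h : R[X]).eval₂ v c = 0 := by
      simp only [eval₂_add, eval₂_mul, eval₂_C, eval₂_X]
      exact hc
    exact ⟨AdjoinRoot.lift v c h1, AdjoinRoot.lift_comp_of h1, AdjoinRoot.lift_root h1⟩
  uniq E _ g g' h1 h2 := AdjoinRoot.ringHom_ext h1 h2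

/-- the part over `l = h = 0` -/
theorem IsLin.closed {R B Y : Type} [CommRing R] [CommRing B] [CommRing Y] {o : R →+* B} {y : B}
    {l h : R} (hB : IsLin o y l h) {q0 : R →+* Y} (hq0 : IsLC q0 (Ideal.span {l, h}) 1) :
    ∃ q : B →+* Polynomial Y, IsLC q (Ideal.span {o l}) 1 := by
  have hl : q0 l = 0 := hq0.zero l (Ideal.subset_span (by simp))
  have hh : q0 h = 0 := hq0.zero h (Ideal.subset_span (by simp))
  obtain ⟨q, hq1, hq2⟩ := hB.ex (Polynomial Y) (C.comp q0) X (by
    rw [RingHom.comp_apply, RingHom.comp_apply, hl, hh, map_zero, zero_mul, add_zero])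
  refine ⟨q, ?_, ?_, ?_, ?_⟩
  · intro b hb
    obtain ⟨c, rfl⟩ := Ideal.mem_span_singleton'.1 hb
    rw [map_mul, ← RingHom.comp_apply, hq1, RingHom.comp_apply, hl, map_zero, mul_zero]
  · rw [map_one]; exact isUnit_one
  · intro E _ v hv _
    have hvl : v (o l) = 0 := hv _ (Ideal.mem_span_singleton_self _)
    have hvh : v (o h) = 0 := by
      have := congrArg v hB.rel
      rwa [map_add, map_mul, hvl, zero_mul, zero_add, map_zero] at this
    obtain ⟨u, hu⟩ := hq0.ex E (v.comp o) (by
      have h3 : Ideal.span {l, h} ≤ RingHom.ker (v.comp o) := by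
        rw [Ideal.span_le]
        intro x hx
        rcases hx with rfl | hx
        · exact hvl
        · rw [Set.mem_singleton_iff] at hx
          subst hx
          exact hvh
      intro b hb
      exact h3 hb) (by rw [map_one]; exact isUnit_one)
    refine ⟨eval₂RingHom u (v y), hB.uniq E _ _ ?_ ?_⟩
    · rw [RingHom.comp_assoc, hq1, ← RingHom.comp_assoc]
      rw [← hu]
      congr 1
      ext a
      simp
    · rw [RingHom.comp_apply, hq2, coe_eval₂RingHom, eval₂_X]
  · intro E _ g g' hgg
    refine Polynomial.ringHom_ext' ?_ ?_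
    · apply hq0.uniq
      rw [RingHom.comp_assoc, RingHom.comp_assoc, ← hq1, ← RingHom.comp_assoc, hgg,
        RingHom.comp_assoc]
    · rw [← hq2]
      exact RingHom.congr_fun hgg y

/-- the part over `l ≠ 0` -/
theorem IsLin.open {R B Z : Type} [CommRing R] [CommRing B] [CommRing Z] {o : R →+* B} {y : B}
    {l h : R} (hB : IsLin o y l h) {r0 : R →+* Z} (hr0 : IsLC r0 ⊥ l) :
    ∃ r : B →+* Z, IsLC r ⊥ (o l) := by
  obtain ⟨w, hw⟩ := hr0.unit
  have hw' : r0 l * (↑w⁻¹ : Z) = 1 := by rw [← hw, Units.mul_inv]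
  obtain ⟨r, hr1, hr2⟩ := hB.ex Z r0 (-((↑w⁻¹ : Z) * r0 h)) (by
    linear_combination (-(r0 h)) * hw')
  refine ⟨r, ?_, ?_, ?_, ?_⟩
  · intro b hb
    rw [Ideal.mem_bot.1 hb, map_zero]
  · rw [← RingHom.comp_apply, hr1]
    exact hr0.unit
  · intro E _ v _ hu
    obtain ⟨u, hu1⟩ := hr0.ex E (v.comp o) (by
      intro b hb
      rw [Ideal.mem_bot.1 hb, map_zero]) hu
    have hu2 : ∀ a, u (r0 a) = v (o a) := fun a => RingHom.congr_fun hu1 a
    refine ⟨u, hB.uniq E _ _ ?_ ?_⟩
    · rw [RingHom.comp_assoc, hr1, hu1]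
    · rw [RingHom.comp_apply, hr2]
      have h1 := congrArg v hB.rel
      rw [map_add, map_mul, map_zero, ← hu2, ← hu2] at h1
      have h2 := congrArg u hw'
      rw [map_mul, map_one] at h2
      rw [map_neg, map_mul]
      linear_combination (-(u (↑w⁻¹ : Z))) * h1 + (v y) * h2
  · intro E _ g g' hgg
    apply hr0.uniq
    rw [← hr1, ← RingHom.comp_assoc, hgg, RingHom.comp_assoc]

variable {k : Type} [Field k]

/-- the ring `R[y]/(l y + h)` for the coordinate ring `R` of the plane -/
theorem linear [Finite k] (hP : FormalClass p P) (hk : (p : k) = 0) (l h : MvPolynomial (Fin 2) k) :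
    P (AdjoinRoot (C l * X + C h : Polynomial (MvPolynomial (Fin 2) k))) := by
  have hB := isLin_std l h
  have hft : Algebra.FiniteType ℤ (AdjoinRoot (C l * X + C h : Polynomial (MvPolynomial (Fin 2) k))) :=
    ft_of_surj (ft_alg (ft_plane (k := k)) inferInstance :
      Algebra.FiniteType ℤ (Polynomial (MvPolynomial (Fin 2) k)))
      (AdjoinRoot.mk _) AdjoinRoot.mk_surjective
  have hch : ((p : ℕ) : AdjoinRoot (C l * X + C h : Polynomial (MvPolynomial (Fin 2) k))) = 0 := by
    rw [← map_natCast (AdjoinRoot.of (C l * X + C h : Polynomial (MvPolynomial (Fin 2) k))),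
      char_plane hk, map_zero]
  have hq0 : ∀ (s : Set (MvPolynomial (Fin 2) k)), IsLC (Ideal.Quotient.mk (Ideal.span s))
      (Ideal.span s) 1 := fun s => ⟨fun b hb => Ideal.Quotient.eq_zero_iff_mem.2 hb, by
      rw [map_one]; exact isUnit_one, fun E _ v hv _ => ⟨Ideal.Quotient.lift _ v hv,
      Ideal.Quotient.lift_comp_mk _ _ hv⟩, fun E _ g g' hgg => Ideal.Quotient.ringHom_ext hgg⟩
  obtain ⟨q, hq⟩ := hB.closed (hq0 {l, h})
  obtain ⟨r, hr⟩ := hB.open (isLC_away l)
  have hc : P (MvPolynomial (Fin 2) k ⧸ Ideal.span {l, h}) := by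
    by_cases hl : l = 0
    · subst hl
      have h1 : Ideal.span {0, h} = Ideal.span {h} := by
        rw [Ideal.span_insert, Ideal.span_singleton_eq_bot.2 rfl, bot_sup_eq]
      rw [h1]
      by_cases hh : h = 0
      · subst hh
        obtain ⟨e⟩ := isLC_equiv (Ideal.Quotient.mk (Ideal.span {(0 : MvPolynomial (Fin 2) k)})) (by
          have := hq0 {0}
          rwa [Ideal.span_singleton_eq_bot.2 rfl] at this ⊢)
        exact hP.iso _ _ e (plane hP hk)
      · exact plane_curve hP hk hh
    · refine hP.curve _ (ft_of_surj ft_plane (Ideal.Quotient.mk _) Ideal.Quotient.mk_surjective) ?_ ?_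
      · rw [← map_natCast (Ideal.Quotient.mk (Ideal.span {l, h})), char_plane hk, map_zero]
      · refine (ringKrullDim_le_of_surjective (Ideal.Quotient.factor
          (S := Ideal.span {l}) (T := Ideal.span {l, h}) (Ideal.span_mono (by simp))) ?_).trans
          (dim_quot hl)
        exact Ideal.Quotient.factor_surjective _
  have ho : P (Localization.Away l) := by
    by_cases hl : l = 0
    · subst hl
      refine p_zero hP ?_
      exact (IsLocalization.subsingleton_iff
        (M := Submonoid.powers (0 : MvPolynomial (Fin 2) k))).2 ⟨1, pow_one _⟩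
    · exact hP.opn _ l (plane hP hk) (plane_curve hP hk hl)
  exact glue' hP (AdjoinRoot.of (C l * X + C h : Polynomial (MvPolynomial (Fin 2) k)) l) hft hch
    hq hr (hP.poly _ hc) ho

end

end Pool.Agent.Helper71.CT
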